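import Pool.Agent.Lib.MP_f11a48_ag.CG.Alg

/-!
# Derivations which kill the matrix `C`: the rank of the relations
-/

set_option autoImplicit false

namespace Pool.Agent.Lib.MPf11a48.BD

open Matrix
open Pool.Agent.Lib.MPf11a48.CG Pool.Agent.Lib.MPf11a48.CG.AlgM

/-- If all derivations of `U` over `k` which kill the `r` numbers `θ i` kill the entries of `C`, then
for more than `r` elements `Z q` of the space of the families of elements of the span of the `W j` there
is a non-trivial linear combination `Z` of them and a derivation `δ` with `δ (C * y a) = Z a * (C * y a)`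
for all `a`. -/
theorem algR (hDex : SpecDex) {U : Type} [Field U] [CharZero U] (k : Subfield U) {ι σ κ : Type}
    [Fintype ι] [DecidableEq ι] [Fintype σ] [DecidableEq σ] [Fintype κ] [DecidableEq κ] (d r : ℕ)
    (X W : Fin d → Matrix ι ι U) (C : Matrix ι ι U) (θ : Fin r → U) (y : σ → Matrix ι ι U)
    (hWC : ∀ j, W j * C = C * X j)
    (hθ : ∀ δ : Derivation k U U, (∀ i, δ (θ i) = 0) → ∀ i j, δ (C i j) = 0)
    (hΦ : ∀ Φ : MvPolynomial (σ × ι × ι) k,
      MvPolynomial.aeval (fun p => y p.1 p.2.1 p.2.2) Φ = 0 →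
      ∀ a j, dv Φ (fun p => y p.1 p.2.1 p.2.2)
        (fun p => if p.1 = a then (X j * y a) p.2.1 p.2.2 else 0) = 0)
    (Z : κ → σ → Matrix ι ι U) (hZ : ∀ q a, Z q a ∈ Submodule.span U (Set.range W))
    (hr : r < Fintype.card κ) :
    ∃ t : κ → U, t ≠ 0 ∧ ∃ δ : Derivation k U U,
      ∀ a i l, δ ((C * y a) i l) = ∑ q, t q * (Z q a * (C * y a)) i l := by
  -- the derivations
  have hex : ∀ q : σ × Fin d, ∃ δ : Derivation k U U, ∀ p : σ × ι × ι,
      δ (y p.1 p.2.1 p.2.2) = if p.1 = q.1 then (X q.2 * y q.1) p.2.1 p.2.2 else 0 := by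
    intro q
    exact hDex U k (σ × ι × ι) (fun p => y p.1 p.2.1 p.2.2)
      (fun p => if p.1 = q.1 then (X q.2 * y q.1) p.2.1 p.2.2 else 0)
      (fun Φ h => hΦ Φ h q.1 q.2)
  choose δ hδ using hex
  have hz : ∀ q a, ∃ z : Fin d → U, ∑ j, z j • W j = Z q a := fun q a =>
    (Submodule.mem_span_range_iff_exists_fun U).1 (hZ q a)
  choose z hz using hz
  -- the derivation for `Z q`
  let D : κ → Derivation k U U := fun q => ∑ b : σ × Fin d, z q b.1 b.2 • δ b
  have hDap : ∀ q (u : U), D q u = ∑ b : σ × Fin d, z q b.1 b.2 * δ b u := by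
    intro q u
    simp only [D, sum_ap, Derivation.smul_apply, smul_eq_mul]
  have hDy : ∀ q a, (y a).map (D q) = (∑ j, z q a j • X j) * y a := by
    intro q a
    ext i l
    rw [Matrix.map_apply, hDap, Fintype.sum_prod_type]
    have h6 : ∀ b : σ, ∑ j : Fin d, z q b j * δ (b, j) (y a i l)
        = if b = a then ∑ j : Fin d, z q b j * (X j * y b) i l else 0 := by
      intro b
      by_cases hb : b = a
      · subst hb
        rw [if_pos rfl]
        refine Finset.sum_congr rfl fun j _ => ?_
        have h7 := hδ (b, j) (b, i, l)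
        simp only [if_true] at h7
        rw [h7]
      · rw [if_neg hb]
        refine Finset.sum_eq_zero fun j _ => ?_
        have h7 := hδ (b, j) (a, i, l)
        have h8 : δ (b, j) (y a i l) = 0 := by simpa [Ne.symm hb] using h7
        rw [h8, mul_zero]
    rw [Finset.sum_congr rfl (fun b _ => h6 b), Finset.sum_ite_eq' Finset.univ a,
      if_pos (Finset.mem_univ a), Matrix.sum_mul, Matrix.sum_apply]
    refine Finset.sum_congr rfl fun j _ => ?_
    rw [Matrix.smul_mul, Matrix.smul_apply, smul_eq_mul]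
  -- a combination which kills the `θ i`
  let Δ : (κ → U) →ₗ[U] (Fin r → U) :=
    { toFun := fun t i => ∑ q, t q * D q (θ i)
      map_add' := by
        intro s t
        funext p
        simp only [Pi.add_apply, add_mul, Finset.sum_add_distrib]
      map_smul' := by
        intro c t
        funext p
        simp only [Pi.smul_apply, smul_eq_mul, RingHom.id_apply, Finset.mul_sum, mul_assoc] }
  have hker : ∃ t : κ → U, t ≠ 0 ∧ Δ t = 0 := by
    have h1 : Module.finrank U (Fin r → U) < Module.finrank U (κ → U) := by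
      rw [Module.finrank_fintype_fun_eq_card, Module.finrank_fintype_fun_eq_card, Fintype.card_fin]
      exact hr
    have h2 : LinearMap.ker Δ ≠ ⊥ := LinearMap.ker_ne_bot_of_finrank_lt h1
    obtain ⟨t, ht, ht0⟩ := (Submodule.ne_bot_iff _).1 h2
    exact ⟨t, ht0, ht⟩
  obtain ⟨t, ht0, htΔ⟩ := hker
  let E : Derivation k U U := ∑ q, t q • D q
  have hEap : ∀ u : U, E u = ∑ q, t q * D q u := by
    intro u
    simp only [E, sum_ap, Derivation.smul_apply, smul_eq_mul]
  have hEC : C.map E = 0 := by
    ext i j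
    refine hθ E (fun i => ?_) i j
    rw [hEap]
    exact congrFun htΔ i
  refine ⟨t, ht0, E, fun a i l => ?_⟩
  have hEc : (C * y a).map E = ∑ q, t q • (Z q a * (C * y a)) := by
    have h1 : (y a).map E = ∑ q, t q • ((y a).map (D q)) := by
      ext i l
      rw [Matrix.map_apply, hEap, Matrix.sum_apply]
      rfl
    rw [der_mul, hEC, Matrix.zero_mul, zero_add, h1, Matrix.mul_sum]
    refine Finset.sum_congr rfl fun q _ => ?_
    rw [Matrix.mul_smul, hDy, ← hz q a]
    have h2 : C * (∑ j, z q a j • X j) = (∑ j, z q a j • W j) * C := by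
      rw [Matrix.mul_sum, Matrix.sum_mul]
      refine Finset.sum_congr rfl fun j _ => ?_
      rw [Matrix.mul_smul, Matrix.smul_mul, hWC]
    rw [← Matrix.mul_assoc C, h2, Matrix.mul_assoc]
  have h1 := congrFun (congrFun hEc i) l
  rw [Matrix.map_apply, Matrix.sum_apply] at h1
  exact h1

end Pool.Agent.Lib.MPf11a48.BD
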