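import Pool.Agent.Lib.MP_f11a48_ag.BD.Tan
import Pool.Agent.Lib.MP_f11a48_ag.CG.MainJ0

/-!
# Change of the basis of the Betti space
-/

set_option autoImplicit false
set_option linter.unusedSectionVars false

namespace Pool.Agent.Lib.MPf11a48.BD

open Matrix
open Pool.Agent.Lib.MPf11a48.CG Pool.Agent.Lib.MPf11a48.CG.MainJM

variable {κ : Type} [Fintype κ] [DecidableEq κ]

/-- the polynomial of degree `1` which gives the entry `v` of the matrix `A x` -/
noncomputable def lft {k : Type} [CommRing k] (A : Matrix κ κ k) (v : κ × κ) :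
    MvPolynomial (κ × κ) k :=
  ∑ l, MvPolynomial.C (A v.1 l) * MvPolynomial.X (l, v.2)

theorem aeval_lft {k : Type} [CommRing k] [Algebra k ℂ] (A : Matrix κ κ k) (c : Matrix κ κ ℂ)
    (v : κ × κ) : MvPolynomial.aeval (fun p : κ × κ => c p.1 p.2) (lft A v) =
      (A.map (algebraMap k ℂ) * c) v.1 v.2 := by
  rw [lft, map_sum, Matrix.mul_apply]
  refine Finset.sum_congr rfl fun l _ => ?_
  rw [map_mul, MvPolynomial.aeval_C, MvPolynomial.aeval_X]
  rfl

theorem dv_lft {k : Type} [CommRing k] [Algebra k ℂ] (A : Matrix κ κ k) (c W : Matrix κ κ ℂ)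
    (v : κ × κ) : dv (lft A v) (fun p : κ × κ => c p.1 p.2) (fun p : κ × κ => W p.1 p.2) =
      (A.map (algebraMap k ℂ) * W) v.1 v.2 := by
  have hsum : ∀ (s : Finset κ) (f : κ → MvPolynomial (κ × κ) k),
      dv (∑ l ∈ s, f l) (fun p : κ × κ => c p.1 p.2) (fun p : κ × κ => W p.1 p.2) =
      ∑ l ∈ s, dv (f l) (fun p : κ × κ => c p.1 p.2) (fun p : κ × κ => W p.1 p.2) := by
    intro s f
    induction s using Finset.induction_on with
    | empty =>
      rw [Finset.sum_empty, Finset.sum_empty]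
      have := dv_C (k := k) (0 : k) (fun p : κ × κ => c p.1 p.2) (fun p : κ × κ => W p.1 p.2)
      rwa [map_zero] at this
    | insert a s ha ih => rw [Finset.sum_insert ha, Finset.sum_insert ha, dv_add, ih]
  rw [lft, hsum, Matrix.mul_apply]
  refine Finset.sum_congr rfl fun l _ => ?_
  rw [dv_mul, dv_C, mul_zero, zero_add, dv_X, MvPolynomial.aeval_C]
  rfl

theorem degree_lft {k : Type} [Field k] (A : Matrix κ κ k) (v : κ × κ) :
    (lft A v).totalDegree ≤ 1 := by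
  refine MvPolynomial.totalDegree_finsetSum_le fun l _ => ?_
  refine (MvPolynomial.totalDegree_mul _ _).trans ?_
  rw [MvPolynomial.totalDegree_C, zero_add]
  exact (MvPolynomial.totalDegree_X _).le

section

variable {k : Type} [Field k] [Algebra k ℂ] {A : Matrix κ κ k} {c₀ c : GL κ ℂ}
  (hc : c.1 = A.map (algebraMap k ℂ) * c₀.1)

include hc

theorem rel_left {F : MvPolynomial (κ × κ) k}
    (hF : MvPolynomial.aeval (fun p : κ × κ => c.1 p.1 p.2) F = 0) :
    MvPolynomial.aeval (fun p : κ × κ => c₀.1 p.1 p.2) (MvPolynomial.bind₁ (lft A) F) = 0 := by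
  rw [MvPolynomial.aeval_bind₁]
  have h1 : (fun v => MvPolynomial.aeval (fun p : κ × κ => c₀.1 p.1 p.2) (lft A v)) =
      fun v : κ × κ => c.1 v.1 v.2 := by
    funext v
    rw [aeval_lft, hc]
  rw [h1]
  exact hF

theorem dv_left (F : MvPolynomial (κ × κ) k) (Z : Matrix κ κ ℂ) :
    dv F (fun p : κ × κ => c.1 p.1 p.2) (fun p => (Z * c.1) p.1 p.2) =
      dv (MvPolynomial.bind₁ (lft A) F) (fun p : κ × κ => c₀.1 p.1 p.2)
        (fun p => (((c * c₀⁻¹)⁻¹.1 * Z * (c * c₀⁻¹).1) * c₀.1) p.1 p.2) := by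
  have hA : A.map (algebraMap k ℂ) = (c * c₀⁻¹).1 := by
    rw [Units.val_mul, hc, Matrix.mul_assoc, show c₀.1 * c₀⁻¹.1 = 1 from c₀.mul_inv,
      Matrix.mul_one]
  rw [dv_bind]
  have h1 : (fun v => MvPolynomial.aeval (fun p : κ × κ => c₀.1 p.1 p.2) (lft A v)) =
      fun v : κ × κ => c.1 v.1 v.2 := by
    funext v
    rw [aeval_lft, hc]
  have h2 : (fun v => dv (lft A v) (fun p : κ × κ => c₀.1 p.1 p.2)
      (fun p => (((c * c₀⁻¹)⁻¹.1 * Z * (c * c₀⁻¹).1) * c₀.1) p.1 p.2)) =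
      fun v : κ × κ => (Z * c.1) v.1 v.2 := by
    funext v
    rw [dv_lft, hA]
    have e1 : (c * c₀⁻¹).1 * ((c * c₀⁻¹)⁻¹.1 * Z * (c * c₀⁻¹).1 * c₀.1) = Z * c.1 := by
      have e2 : (c * c₀⁻¹).1 * (c * c₀⁻¹)⁻¹.1 = 1 := (c * c₀⁻¹).mul_inv
      have e3 : (c * c₀⁻¹).1 * c₀.1 = c.1 := by
        have : c * c₀⁻¹ * c₀ = c := by group
        exact congrArg Units.val this
      calc (c * c₀⁻¹).1 * ((c * c₀⁻¹)⁻¹.1 * Z * (c * c₀⁻¹).1 * c₀.1) =
          ((c * c₀⁻¹).1 * (c * c₀⁻¹)⁻¹.1) * Z * ((c * c₀⁻¹).1 * c₀.1) := by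
            simp only [Matrix.mul_assoc]
        _ = Z * c.1 := by rw [e2, e3, Matrix.one_mul]
    rw [e1]
  rw [h1, h2]

/-- entries without relations of bounded degree, in another basis of the Betti space -/
theorem ind_left (g : Submodule ℂ (Matrix κ κ ℂ)) (D s e : ℕ)
    (hdet : ∀ (F : Fin (s + 1) → MvPolynomial (κ × κ) k) (Z : Fin (s + 1) → Matrix κ κ ℂ),
      (∀ i, (F i).totalDegree ≤ D) →
      (∀ i, MvPolynomial.aeval (fun p : κ × κ => c₀.1 p.1 p.2) (F i) = 0) → (∀ j, Z j ∈ g) →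
      (Matrix.of fun i j => dv (F i) (fun p : κ × κ => c₀.1 p.1 p.2)
        fun p => (Z j * c₀.1) p.1 p.2).det = 0)
    (he : e = 0 ∨ e = 1 ∧ ∃ X : Matrix κ κ ℂ, X ∉ g ∧ ∀ F : MvPolynomial (κ × κ) k,
      MvPolynomial.aeval (fun p : κ × κ => c₀.1 p.1 p.2) F = 0 →
      dv F (fun p : κ × κ => c₀.1 p.1 p.2) (fun p => (X * c₀.1) p.1 p.2) = 0) :
    ∃ B : Finset (κ × κ), Module.finrank ℂ g + e ≤ B.card + s ∧
      ∀ P : MvPolynomial B k, P.totalDegree ≤ D →
        MvPolynomial.aeval (fun p : B => c.1 p.1.1 p.1.2) P = 0 → P = 0 := by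
  -- conjugation
  let q : GL κ ℂ := c * c₀⁻¹
  let f : Matrix κ κ ℂ ≃ₗ[ℂ] Matrix κ κ ℂ :=
    { toFun := fun Z => q⁻¹.1 * Z * q.1
      invFun := fun Z => q.1 * Z * q⁻¹.1
      map_add' := by
        intro Z W
        rw [Matrix.mul_add, Matrix.add_mul]
      map_smul' := by
        intro t Z
        rw [Matrix.mul_smul, Matrix.smul_mul]
        rfl
      left_inv := by
        intro Z
        have e2 : q.1 * q⁻¹.1 = 1 := q.mul_inv
        calc q.1 * (q⁻¹.1 * Z * q.1) * q⁻¹.1 = (q.1 * q⁻¹.1) * Z * (q.1 * q⁻¹.1) := by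
              simp only [Matrix.mul_assoc]
          _ = Z := by rw [e2, Matrix.one_mul, Matrix.mul_one]
      right_inv := by
        intro Z
        have e2 : q⁻¹.1 * q.1 = 1 := q.inv_mul
        calc q⁻¹.1 * (q.1 * Z * q⁻¹.1) * q.1 = (q⁻¹.1 * q.1) * Z * (q⁻¹.1 * q.1) := by
              simp only [Matrix.mul_assoc]
          _ = Z := by rw [e2, Matrix.one_mul, Matrix.mul_one] }
  have hf : ∀ Z, f Z = (c * c₀⁻¹)⁻¹.1 * Z * (c * c₀⁻¹).1 := fun Z => rfl
  have hg : Module.finrank ℂ (g.comap f.toLinearMap) = Module.finrank ℂ g := by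
    have h1 : g.comap f.toLinearMap = g.map f.symm.toLinearMap := by
      ext Z
      rw [Submodule.mem_comap, Submodule.mem_map]
      constructor
      · intro h
        exact ⟨f Z, h, f.symm_apply_apply Z⟩
      · rintro ⟨W, hW, rfl⟩
        change f (f.symm W) ∈ g
        rwa [f.apply_symm_apply]
    rw [h1]
    exact LinearEquiv.finrank_map_eq f.symm g
  rw [← hg]
  refine ind_of_det c _ D s e ?_ ?_
  · intro F Z hF hF0 hZ
    have h1 := hdet (fun i => MvPolynomial.bind₁ (lft A) (F i)) (fun j => f (Z j))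
      (fun i => (totalDegree_bind_le _ (degree_lft A) _).trans (hF i))
      (fun i => rel_left hc (hF0 i)) (fun j => hZ j)
    rw [← h1]
    congr 2
    ext i j
    rw [dv_left hc, hf]
  · rcases he with rfl | ⟨rfl, X, hX, hXF⟩
    · exact Or.inl rfl
    · refine Or.inr ⟨rfl, f.symm X, ?_, ?_⟩
      · intro h
        apply hX
        have h1 : f (f.symm X) ∈ g := h
        rwa [f.apply_symm_apply] at h1
      · intro F hF
        rw [dv_left hc, ← hf, f.apply_symm_apply]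
        exact hXF _ (rel_left hc hF)

end

end Pool.Agent.Lib.MPf11a48.BD
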