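import Pool.Agent.Lib.MP_f11a48_ag.BD.Lin

/-!
# The defects of the summands
-/

set_option autoImplicit false

namespace Pool.Agent.Lib.MPf11a48.BD

open Pool.Agent.Lib.MPf11a48.CG

/-- the greedy algorithm for a supermodular function -/
theorem greedy (d : Finset ℕ → ℕ) (h0 : d ∅ = 0)
    (hsup : ∀ J J' : Finset ℕ, d J + d J' ≤ d (J ∪ J') + d (J ∩ J'))
    (hmono : ∀ J J' : Finset ℕ, J ⊆ J' → d J ≤ d J') :
    ∃ ε : ℕ → ℕ, (∀ k, ∑ m ∈ Finset.range k, ε m = d (Finset.range k)) ∧
      ∀ J, d J ≤ ∑ m ∈ J, ε m := by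
  have hr : ∀ m, d (Finset.range m) ≤ d (Finset.range (m + 1)) := fun m =>
    hmono _ _ (Finset.range_mono (Nat.le_succ m))
  refine ⟨fun m => d (Finset.range (m + 1)) - d (Finset.range m), ?_, ?_⟩
  · intro k
    induction k with
    | zero => rw [Finset.range_zero, Finset.sum_empty, h0]
    | succ k ih =>
      rw [Finset.sum_range_succ, ih]
      have := hr k
      omega
  · intro J
    induction J using Finset.induction_on_max with
    | empty => rw [h0, Finset.sum_empty]
    | insert m J hJ ih =>
      have hm : m ∉ J := fun h => lt_irrefl _ (hJ m h)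
      rw [Finset.sum_insert hm]
      have h1 := hsup (insert m J) (Finset.range m)
      have h2 : insert m J ∪ Finset.range m = Finset.range (m + 1) := by
        ext x
        rw [Finset.mem_union, Finset.mem_insert, Finset.mem_range, Finset.mem_range]
        constructor
        · rintro ((rfl | h) | h)
          · omega
          · have := hJ x h
            omega
          · omega
        · intro h
          by_cases hx : x = m
          · exact Or.inl (Or.inl hx)
          · exact Or.inr (by omega)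
      have h3 : insert m J ∩ Finset.range m = J := by
        ext x
        rw [Finset.mem_inter, Finset.mem_insert, Finset.mem_range]
        constructor
        · rintro ⟨rfl | h, h'⟩
          · exact absurd h' (lt_irrefl _)
          · exact h
        · intro h
          exact ⟨Or.inr h, hJ x h⟩
      rw [h2, h3] at h1
      have h4 := hr m
      have h5 : d J ≤ ∑ x ∈ J, (d (Finset.range (x + 1)) - d (Finset.range x)) := ih
      omega

/-- The defects: for a space `W` of functionals on the families `(Z a)`, `a < k`, of elements of `g`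
there are numbers `ε m` with sum `≤ dim W` such that a subspace of `W` of functionals which depend on
the `Z a`, `a ∈ J`, only has dimension `≤ ∑ ε m`, `m ∈ J`. -/
theorem exists_defect {g : Type} [AddCommGroup g] [Module ℂ g] [FiniteDimensional ℂ g] (k : ℕ)
    (W : Submodule ℂ ((Fin k → g) →ₗ[ℂ] ℂ)) :
    ∃ ε : ℕ → ℕ, ∑ m ∈ Finset.range k, ε m ≤ Module.finrank ℂ W ∧
      ∀ (J : Finset ℕ) (U : Submodule ℂ ((Fin k → g) →ₗ[ℂ] ℂ)), U ≤ W →
        (∀ φ ∈ U, ∀ Z : Fin k → g, (∀ a : Fin k, (a : ℕ) ∈ J → Z a = 0) → φ Z = 0) →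
        Module.finrank ℂ U ≤ ∑ m ∈ J, ε m := by
  classical
  -- the functionals which depend on the components in `J` only
  let A : Finset ℕ → Submodule ℂ ((Fin k → g) →ₗ[ℂ] ℂ) := fun J =>
    { carrier := {φ | ∀ Z : Fin k → g, (∀ a : Fin k, (a : ℕ) ∈ J → Z a = 0) → φ Z = 0}
      add_mem' := by
        intro φ χ hφ hχ Z hZ
        rw [LinearMap.add_apply, hφ Z hZ, hχ Z hZ, add_zero]
      zero_mem' := by
        intro Z _
        rfl
      smul_mem' := by
        intro t φ hφ Z hZ
        rw [LinearMap.smul_apply, hφ Z hZ, smul_zero] }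
  have hA : ∀ J φ, φ ∈ A J ↔ ∀ Z : Fin k → g, (∀ a : Fin k, (a : ℕ) ∈ J → Z a = 0) → φ Z = 0 :=
    fun J φ => Iff.rfl
  have hAmono : ∀ J J' : Finset ℕ, J ⊆ J' → A J ≤ A J' := by
    intro J J' h φ hφ Z hZ
    exact hφ Z fun a ha => hZ a (h ha)
  have hAinf : ∀ J J' : Finset ℕ, A J ⊓ A J' ≤ A (J ∩ J') := by
    intro J J' φ hφ Z hZ
    have e : Z = (fun a : Fin k => if (a : ℕ) ∈ J then 0 else Z a) +
        fun a : Fin k => if (a : ℕ) ∈ J then Z a else 0 := by
      funext a
      rw [Pi.add_apply]
      split_ifs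
      · rw [zero_add]
      · rw [add_zero]
    rw [e, map_add, hφ.1 _ fun a ha => if_pos ha, hφ.2 _ ?_, add_zero]
    intro a ha
    split_ifs with h
    · exact hZ a (Finset.mem_inter.2 ⟨h, ha⟩)
    · rfl
  obtain ⟨ε, h1, h2⟩ := greedy (fun J => Module.finrank ℂ (W ⊓ A J : Submodule ℂ _)) (by
      have h3 : W ⊓ A ∅ = ⊥ := by
        rw [eq_bot_iff]
        rintro φ ⟨-, hφ⟩
        rw [Submodule.mem_bot]
        refine LinearMap.ext fun Z => ?_
        exact hφ Z fun a ha => absurd ha (Finset.notMem_empty _)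
      change Module.finrank ℂ (W ⊓ A ∅ : Submodule ℂ _) = 0
      rw [h3, finrank_bot]) (by
      intro J J'
      have h3 := Submodule.finrank_sup_add_finrank_inf_eq (W ⊓ A J) (W ⊓ A J')
      have h4 : Module.finrank ℂ ((W ⊓ A J) ⊔ (W ⊓ A J') : Submodule ℂ _) ≤
          Module.finrank ℂ (W ⊓ A (J ∪ J') : Submodule ℂ _) := by
        refine Submodule.finrank_mono (sup_le ?_ ?_)
        · exact inf_le_inf_left _ (hAmono _ _ Finset.subset_union_left)
        · exact inf_le_inf_left _ (hAmono _ _ Finset.subset_union_right)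
      have h5 : Module.finrank ℂ ((W ⊓ A J) ⊓ (W ⊓ A J') : Submodule ℂ _) ≤
          Module.finrank ℂ (W ⊓ A (J ∩ J') : Submodule ℂ _) := by
        refine Submodule.finrank_mono (le_inf ?_ ?_)
        · exact inf_le_left.trans inf_le_left
        · exact (inf_le_inf inf_le_right inf_le_right).trans (hAinf J J')
      omega) (fun J J' h => Submodule.finrank_mono (inf_le_inf_left _ (hAmono J J' h)))
  refine ⟨ε, ?_, ?_⟩
  · rw [h1 k]
    exact Submodule.finrank_mono inf_le_left
  · intro J U hU hUJ
    have h3 : U ≤ A J := fun φ hφ => (hA J φ).2 (hUJ φ hφ)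
    exact (Submodule.finrank_mono (le_inf hU h3)).trans (h2 J)

section

variable {V : Type} [AddCommGroup V] [Module ℂ V]

/-- If the determinants of order `s + 1` of a family of functionals vanish, then its span has dimension
`≤ s`. -/
theorem span_le_of_det [FiniteDimensional ℂ V] {I : Type} (φ : I → V →ₗ[ℂ] ℂ) (s : ℕ)
    (hdet : ∀ (e : Fin (s + 1) → I) (Z : Fin (s + 1) → V),
      (Matrix.of fun a b => φ (e a) (Z b)).det = 0) :
    Module.finrank ℂ (Submodule.span ℂ (Set.range φ)) ≤ s := by
  classical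
  obtain ⟨κ, em, hem, hspan, hind⟩ := exists_linearIndependent' ℂ φ
  have : Finite κ := hind.finite
  have : Fintype κ := Fintype.ofFinite κ
  rw [← hspan, finrank_span_eq_card hind]
  by_contra h
  push Not at h
  have h1 : Fintype.card (Fin (s + 1)) ≤ Fintype.card κ := by rwa [Fintype.card_fin]
  obtain ⟨f⟩ := Function.Embedding.nonempty_of_card_le h1
  have h2 : LinearIndependent ℂ fun a : Fin (s + 1) => φ (em (f a)) := hind.comp f f.injective
  choose Z hZ using fun b : Fin (s + 1) =>
    surj_of_li (fun a : Fin (s + 1) => φ (em (f a))) h2 (Pi.single b 1)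
  have h3 := hdet (fun a => em (f a)) Z
  have h4 : (Matrix.of fun a b => φ (em (f a)) (Z b)) = 1 := by
    ext a b
    rw [Matrix.of_apply, hZ b a, Matrix.one_apply, Pi.single_apply]
  rw [h4, Matrix.det_one] at h3
  exact one_ne_zero h3

/-- the determinants of order `q + 1` of functionals in a space of dimension `≤ q` vanish -/
theorem det_of_finrank {U : Submodule ℂ (V →ₗ[ℂ] ℂ)} [FiniteDimensional ℂ U] {q : ℕ}
    (hU : Module.finrank ℂ U ≤ q) (φ : Fin (q + 1) → V →ₗ[ℂ] ℂ) (hφ : ∀ i, φ i ∈ U)
    (Z : Fin (q + 1) → V) : (Matrix.of fun a b => φ a (Z b)).det = 0 := by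
  have h1 : ¬ LinearIndependent ℂ fun i => (⟨φ i, hφ i⟩ : U) := by
    intro h
    have := h.fintype_card_le_finrank
    rw [Fintype.card_fin] at this
    omega
  rw [Fintype.not_linearIndependent_iff] at h1
  obtain ⟨t, ht, i, hi⟩ := h1
  by_contra h0
  apply hi
  have h2 : Matrix.vecMul t (Matrix.of fun a b => φ a (Z b)) = 0 := by
    funext b
    have h3 : (∑ i, t i • φ i) = 0 := by
      have := congrArg Subtype.val ht
      rw [Submodule.coe_sum] at this
      exact this
    have h4 := congrArg (fun f : V →ₗ[ℂ] ℂ => f (Z b)) h3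
    simp only [LinearMap.sum_apply, LinearMap.smul_apply, smul_eq_mul, LinearMap.zero_apply] at h4
    exact h4
  have h3 := Matrix.eq_zero_of_vecMul_eq_zero h0 h2
  rw [h3]
  rfl

end

end Pool.Agent.Lib.MPf11a48.BD
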