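import Pool.Agent.Lib.MP_f11a48_ag.CG.SpecB

/-!
# Linear algebra and polynomial relations of bounded degree
-/

set_option autoImplicit false

namespace Pool.Agent.Lib.MPf11a48.BD

open Pool.Agent.Lib.MPf11a48.CG

/-! ### functionals -/

section fun'

variable {V : Type} [AddCommGroup V] [Module ℂ V]

/-- linearly independent functionals take all values -/
theorem surj_of_li {κ : Type} [Fintype κ] [DecidableEq κ] (f : κ → V →ₗ[ℂ] ℂ)
    (hf : LinearIndependent ℂ f) (b : κ → ℂ) : ∃ v, ∀ i, f i v = b i := by
  by_contra hcon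
  have h1 : LinearMap.range (LinearMap.pi f) < ⊤ := by
    rw [lt_top_iff_ne_top]
    intro h
    have h2 : b ∈ LinearMap.range (LinearMap.pi f) := by
      rw [h]
      trivial
    obtain ⟨v, hv⟩ := h2
    exact hcon ⟨v, fun i => congrFun hv i⟩
  obtain ⟨g, hg, hle⟩ := Submodule.exists_le_ker_of_lt_top _ h1
  have h2 : ∀ x : κ → ℂ, g x = ∑ i, x i * g (Pi.single i 1) := by
    intro x
    conv_lhs => rw [← Finset.univ_sum_single x]
    rw [map_sum]
    refine Finset.sum_congr rfl fun i _ => ?_
    have h3 : (Pi.single i (x i) : κ → ℂ) = x i • (Pi.single i 1 : κ → ℂ) := by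
      rw [← Pi.single_smul, smul_eq_mul, mul_one]
    rw [h3, map_smul, smul_eq_mul]
  have h3 : ∑ i, g (Pi.single i 1) • f i = 0 := by
    ext v
    have h4 : g (LinearMap.pi f v) = 0 := hle ⟨v, rfl⟩
    rw [h2] at h4
    rw [LinearMap.sum_apply, LinearMap.zero_apply, ← h4]
    refine Finset.sum_congr rfl fun i _ => ?_
    rw [LinearMap.smul_apply, smul_eq_mul, LinearMap.pi_apply, mul_comm]
  have h4 := Fintype.linearIndependent_iff.1 hf _ h3
  apply hg
  refine LinearMap.ext fun x => ?_
  rw [h2, LinearMap.zero_apply]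
  exact Finset.sum_eq_zero fun i _ => by rw [h4 i, mul_zero]

variable [FiniteDimensional ℂ V]

/-- If the determinants of order `s + 1` of a family of functionals vanish, then its common kernel has
codimension `≤ s`. -/
theorem rank_le {I : Type} (φ : I → V →ₗ[ℂ] ℂ) (S : Submodule ℂ V)
    (hS : ∀ v, v ∈ S ↔ ∀ i, φ i v = 0) (s : ℕ)
    (hdet : ∀ (e : Fin (s + 1) → I) (Z : Fin (s + 1) → V),
      (Matrix.of fun a b => φ (e a) (Z b)).det = 0) :
    Module.finrank ℂ V ≤ Module.finrank ℂ S + s := by
  classical
  obtain ⟨κ, em, hem, hspan, hind⟩ := exists_linearIndependent' ℂ φ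
  have : Finite κ := hind.finite
  have : Fintype κ := Fintype.ofFinite κ
  have hcard : Fintype.card κ ≤ s := by
    by_contra h
    push Not at h
    have h1 : Fintype.card (Fin (s + 1)) ≤ Fintype.card κ := by rwa [Fintype.card_fin]
    obtain ⟨f⟩ := Function.Embedding.nonempty_of_card_le h1
    have h2 : LinearIndependent ℂ fun a : Fin (s + 1) => φ (em (f a)) := hind.comp f f.injective
    choose Z hZ using fun b : Fin (s + 1) =>
      surj_of_li (fun a : Fin (s + 1) => φ (em (f a))) h2 (Pi.single b 1)
    have h3 := hdet (fun a => em (f a)) Z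
    have h4 : (Matrix.of fun a b => φ (em (f a)) (Z b)) = 1 := by
      ext a b
      rw [Matrix.of_apply, hZ b a, Matrix.one_apply, Pi.single_apply]
    rw [h4, Matrix.det_one] at h3
    exact one_ne_zero h3
  let L : V →ₗ[ℂ] (κ → ℂ) := LinearMap.pi fun q => φ (em q)
  have hker : LinearMap.ker L ≤ S := by
    intro v hv
    rw [hS]
    intro i
    have h1 : φ i ∈ Submodule.span ℂ (Set.range (φ ∘ em)) := by
      rw [hspan]
      exact Submodule.subset_span ⟨i, rfl⟩
    have h2 : Submodule.span ℂ (Set.range (φ ∘ em)) ≤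
        LinearMap.ker (LinearMap.applyₗ v : (V →ₗ[ℂ] ℂ) →ₗ[ℂ] ℂ) := by
      rw [Submodule.span_le]
      rintro _ ⟨q, rfl⟩
      exact congrFun (LinearMap.mem_ker.1 hv) q
    exact h2 h1
  have h1 := LinearMap.finrank_range_add_finrank_ker L
  have h2 := Submodule.finrank_mono hker
  have h3 := (LinearMap.range L).finrank_le
  rw [Module.finrank_fintype_fun_eq_card] at h3
  omega

/-- a basis of the space of functionals in a family which separates points -/
theorem exists_basis {I : Type} [DecidableEq I] (x : I → V →ₗ[ℂ] ℂ)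
    (hx : ∀ v, (∀ i, x i v = 0) → v = 0) :
    ∃ B : Finset I, Module.finrank ℂ V ≤ B.card ∧ LinearIndependent ℂ fun i : B => x i.1 := by
  classical
  obtain ⟨κ, em, hem, hspan, hind⟩ := exists_linearIndependent' ℂ x
  have : Finite κ := hind.finite
  have : Fintype κ := Fintype.ofFinite κ
  refine ⟨Finset.univ.map ⟨em, hem⟩, ?_, ?_⟩
  · rw [Finset.card_map, Finset.card_univ]
    let L : V →ₗ[ℂ] (κ → ℂ) := LinearMap.pi fun q => x (em q)
    have hker : LinearMap.ker L = ⊥ := by
      rw [eq_bot_iff]
      intro v hv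
      rw [Submodule.mem_bot]
      apply hx
      intro i
      have h1 : x i ∈ Submodule.span ℂ (Set.range (x ∘ em)) := by
        rw [hspan]
        exact Submodule.subset_span ⟨i, rfl⟩
      have h2 : Submodule.span ℂ (Set.range (x ∘ em)) ≤
          LinearMap.ker (LinearMap.applyₗ v : (V →ₗ[ℂ] ℂ) →ₗ[ℂ] ℂ) := by
        rw [Submodule.span_le]
        rintro _ ⟨q, rfl⟩
        exact congrFun (LinearMap.mem_ker.1 hv) q
      exact h2 h1
    have h1 := LinearMap.finrank_le_finrank_of_injective (LinearMap.ker_eq_bot.1 hker)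
    rwa [Module.finrank_fintype_fun_eq_card] at h1
  · have h1 : ∀ i : (Finset.univ.map ⟨em, hem⟩ : Finset I), ∃ q, em q = i.1 := by
      rintro ⟨i, hi⟩
      obtain ⟨q, -, hq⟩ := Finset.mem_map.1 hi
      exact ⟨q, hq⟩
    choose g hg using h1
    have h2 : Function.Injective g := by
      intro i j hij
      apply Subtype.ext
      rw [← hg i, ← hg j, hij]
    have h3 := hind.comp g h2
    have e : (fun i : (Finset.univ.map ⟨em, hem⟩ : Finset I) => x i.1) = (x ∘ em) ∘ g := by
      funext i
      exact congrArg x (hg i).symm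
    rw [e]
    exact h3

end fun'

/-! ### polynomials -/

/-- the degree of a derivative -/
theorem degree_pderiv {I k : Type} [Field k] (i : I) {P : MvPolynomial I k} {n : ℕ}
    (h : P.totalDegree ≤ n + 1) : (MvPolynomial.pderiv i P).totalDegree ≤ n := by
  classical
  unfold MvPolynomial.totalDegree
  refine Finset.sup_le fun m hm => ?_
  have h1 : m + Finsupp.single i 1 ∈ P.support := by
    rw [MvPolynomial.mem_support_iff] at hm ⊢
    intro h0
    apply hm
    rw [MvPolynomial.coeff_pderiv, h0, zero_mul]
  have h2 := (MvPolynomial.le_totalDegree h1).trans h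
  rw [Finsupp.sum_add_index' (fun _ => rfl) (fun _ _ _ => rfl), Finsupp.sum_single_index rfl] at h2
  omega

/-- a polynomial whose derivatives vanish is constant -/
theorem eq_C_of_pderiv {I k : Type} [Field k] [CharZero k] {P : MvPolynomial I k}
    (h : ∀ i, MvPolynomial.pderiv i P = 0) : P = MvPolynomial.C (MvPolynomial.coeff 0 P) := by
  classical
  refine MvPolynomial.ext _ _ fun m => ?_
  rw [MvPolynomial.coeff_C]
  by_cases hm : m = 0
  · rw [if_pos hm.symm, hm]
  · rw [if_neg (Ne.symm hm)]
    obtain ⟨i, hi⟩ : ∃ i, m i ≠ 0 := by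
      by_contra hcon
      push Not at hcon
      exact hm (Finsupp.ext hcon)
    have h1 := MvPolynomial.coeff_pderiv (i := i) P (m - Finsupp.single i 1)
    rw [h i, MvPolynomial.coeff_zero] at h1
    have h2 : m - Finsupp.single i 1 + Finsupp.single i 1 = m := by
      refine tsub_add_cancel_of_le ?_
      rw [Finsupp.single_le_iff]
      omega
    rw [h2] at h1
    have h3 : ((m - Finsupp.single i 1 : I →₀ ℕ) i : k) + 1 ≠ 0 := Nat.cast_add_one_ne_zero _
    exact (mul_eq_zero.1 h1.symm).resolve_right h3

/-- If the derivatives of the relations of degree `≤ D` vanish on the vectors `(x p v)`, `v ∈ V`, and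
the functionals `x p`, `p ∈ B`, are linearly independent, then there is no relation of degree `≤ D`
between the numbers `c p`, `p ∈ B`. -/
theorem indep_of {I : Type} [Fintype I] [DecidableEq I] {k : Type} [Field k] [Algebra k ℂ]
    {V : Type} [AddCommGroup V] [Module ℂ V] (c : I → ℂ) (x : I → V →ₗ[ℂ] ℂ) (D : ℕ)
    (h : ∀ F : MvPolynomial I k, F.totalDegree ≤ D → MvPolynomial.aeval c F = 0 →
      ∀ v, dv F c (fun p => x p v) = 0)
    (B : Finset I) (hB : LinearIndependent ℂ fun i : B => x i.1) (P : MvPolynomial B k)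
    (hP : P.totalDegree ≤ D) (hP0 : MvPolynomial.aeval (fun i : B => c i.1) P = 0) : P = 0 := by
  have : CharZero k := (algebraMap k ℂ).charZero
  have key : ∀ n : ℕ, n ≤ D → ∀ P : MvPolynomial B k, P.totalDegree ≤ n →
      MvPolynomial.aeval (fun i : B => c i.1) P = 0 → P = 0 := by
    intro n
    induction n with
    | zero =>
      intro _ P hP hP0
      have h1 := MvPolynomial.totalDegree_eq_zero_iff_eq_C.1 (Nat.le_zero.1 hP)
      rw [h1, MvPolynomial.aeval_C] at hP0
      rw [h1, (map_eq_zero _).1 hP0, map_zero]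
    | succ n ih =>
      intro hn P hP hP0
      have h1 := h (MvPolynomial.rename Subtype.val P)
        ((MvPolynomial.totalDegree_rename_le _ _).trans (hP.trans hn))
        (by rw [MvPolynomial.aeval_rename]; exact hP0)
      have h2 : ∑ i : B, (MvPolynomial.aeval (fun i : B => c i.1) (MvPolynomial.pderiv i P)) •
          x i.1 = 0 := by
        ext v
        rw [LinearMap.sum_apply, LinearMap.zero_apply, ← h1 v]
        unfold dv
        rw [← Finset.sum_subset (Finset.subset_univ B), ← Finset.sum_coe_sort B]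
        · refine Finset.sum_congr rfl fun i _ => ?_
          rw [LinearMap.smul_apply, smul_eq_mul,
            MvPolynomial.pderiv_rename Subtype.val_injective, MvPolynomial.aeval_rename]
          rfl
        · intro i _ hi
          rw [MvPolynomial.pderiv_eq_zero_of_notMem_vars, map_zero, zero_mul]
          intro h3
          obtain ⟨j, -, hj⟩ := Finset.mem_image.1 (MvPolynomial.vars_rename _ _ h3)
          exact hi (hj ▸ j.2)
      have h3 := Fintype.linearIndependent_iff.1 hB _ h2
      have h4 : ∀ i, MvPolynomial.pderiv i P = 0 := fun i =>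
        ih (by omega) _ (degree_pderiv i hP) (h3 i)
      have h5 := eq_C_of_pderiv h4
      rw [h5, MvPolynomial.aeval_C] at hP0
      rw [h5, (map_eq_zero _).1 hP0, map_zero]
  exact key D le_rfl P hP hP0

end Pool.Agent.Lib.MPf11a48.BD
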