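import Pool.Agent.Lib.MP_f11a48_ag.BD.Lin
import Pool.Agent.Lib.MP_f11a48_ag.CG.Alg

/-!
# From the rank of the relations of bounded degree to entries without relations of bounded degree
-/

set_option autoImplicit false

namespace Pool.Agent.Lib.MPf11a48.BD

open Matrix
open Pool.Agent.Lib.MPf11a48.CG

variable {κ : Type} [Fintype κ] [DecidableEq κ]

/-- the derivative of `F` at `c` in the direction `Z c` -/
noncomputable def fn {k : Type} [CommRing k] [Algebra k ℂ] (c : Matrix κ κ ℂ)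
    (F : MvPolynomial (κ × κ) k) : Matrix κ κ ℂ →ₗ[ℂ] ℂ where
  toFun Z := dv F (fun p => c p.1 p.2) fun p => (Z * c) p.1 p.2
  map_add' Z W := by
    unfold dv
    rw [← Finset.sum_add_distrib]
    refine Finset.sum_congr rfl fun i _ => ?_
    rw [Matrix.add_mul]
    exact mul_add _ _ _
  map_smul' t Z := by
    unfold dv
    rw [RingHom.id_apply, smul_eq_mul, Finset.mul_sum]
    refine Finset.sum_congr rfl fun i _ => ?_
    rw [Matrix.smul_mul]
    exact mul_left_comm _ _ _

theorem fn_apply {k : Type} [CommRing k] [Algebra k ℂ] (c : Matrix κ κ ℂ)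
    (F : MvPolynomial (κ × κ) k) (Z : Matrix κ κ ℂ) :
    fn c F Z = dv F (fun p => c p.1 p.2) fun p => (Z * c) p.1 p.2 := rfl

/-- the entry `p` of `Z c` -/
noncomputable def et (c : Matrix κ κ ℂ) (p : κ × κ) : Matrix κ κ ℂ →ₗ[ℂ] ℂ where
  toFun Z := (Z * c) p.1 p.2
  map_add' Z W := by rw [Matrix.add_mul, Matrix.add_apply]
  map_smul' t Z := by rw [RingHom.id_apply, Matrix.smul_mul, Matrix.smul_apply, smul_eq_mul]

theorem et_apply (c : Matrix κ κ ℂ) (p : κ × κ) (Z : Matrix κ κ ℂ) : et c p Z = (Z * c) p.1 p.2 :=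
  rfl

/-- Let `g` be a space of matrices such that the derivatives of any `s + 1` relations of degree `≤ D`
along `g` are linearly dependent (and let `e = 1` if there is a matrix which is not in `g` along which
the derivatives of all relations vanish). Then there are at least `dim g + e - s` entries of `c` without
relations of degree `≤ D`. -/
theorem ind_of_det {k : Type} [Field k] [Algebra k ℂ] (c : GL κ ℂ)
    (g : Submodule ℂ (Matrix κ κ ℂ)) (D s e : ℕ)
    (hdet : ∀ (F : Fin (s + 1) → MvPolynomial (κ × κ) k) (Z : Fin (s + 1) → Matrix κ κ ℂ),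
      (∀ i, (F i).totalDegree ≤ D) →
      (∀ i, MvPolynomial.aeval (fun p : κ × κ => c.1 p.1 p.2) (F i) = 0) → (∀ j, Z j ∈ g) →
      (Matrix.of fun i j => dv (F i) (fun p : κ × κ => c.1 p.1 p.2)
        fun p => (Z j * c.1) p.1 p.2).det = 0)
    (he : e = 0 ∨ e = 1 ∧ ∃ X : Matrix κ κ ℂ, X ∉ g ∧ ∀ F : MvPolynomial (κ × κ) k,
      MvPolynomial.aeval (fun p : κ × κ => c.1 p.1 p.2) F = 0 →
      dv F (fun p : κ × κ => c.1 p.1 p.2) (fun p => (X * c.1) p.1 p.2) = 0) :
    ∃ B : Finset (κ × κ), Module.finrank ℂ g + e ≤ B.card + s ∧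
      ∀ P : MvPolynomial B k, P.totalDegree ≤ D →
        MvPolynomial.aeval (fun p : B => c.1 p.1.1 p.1.2) P = 0 → P = 0 := by
  classical
  let I : Type := {F : MvPolynomial (κ × κ) k // F.totalDegree ≤ D ∧
    MvPolynomial.aeval (fun p : κ × κ => c.1 p.1 p.2) F = 0}
  -- the tangent space
  let T : Submodule ℂ (Matrix κ κ ℂ) := ⨅ F : I, LinearMap.ker (fn c.1 F.1)
  have hT : ∀ Z, Z ∈ T ↔ ∀ F : I, fn c.1 F.1 Z = 0 := by
    intro Z
    simp only [T, Submodule.mem_iInf, LinearMap.mem_ker]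
  let S : Submodule ℂ g := T.comap g.subtype
  have h1 : Module.finrank ℂ g ≤ Module.finrank ℂ S + s := by
    refine rank_le (fun F : I => (fn c.1 F.1).comp g.subtype) S (fun v => hT v.1) s ?_
    intro e Z
    exact hdet (fun i => (e i).1) (fun j => (Z j).1) (fun i => (e i).2.1) (fun i => (e i).2.2)
      fun j => (Z j).2
  have hS : Module.finrank ℂ (S.map g.subtype) = Module.finrank ℂ S :=
    Submodule.finrank_map_subtype_eq g S
  have hle : S.map g.subtype ≤ T := by
    rintro _ ⟨Z, hZ, rfl⟩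
    exact hZ
  have h2 : Module.finrank ℂ S + e ≤ Module.finrank ℂ T := by
    rcases he with rfl | ⟨rfl, X, hX, hXF⟩
    · rw [add_zero, ← hS]
      exact Submodule.finrank_mono hle
    · rw [← hS]
      refine Submodule.finrank_lt_finrank_of_lt (lt_of_le_of_ne hle ?_)
      intro h3
      have h4 : X ∈ T := (hT X).2 fun F => hXF F.1 F.2.2
      rw [← h3] at h4
      obtain ⟨Z, -, hZ⟩ := h4
      exact hX (hZ ▸ Z.2)
  -- the entries
  obtain ⟨B, hB, hli⟩ := exists_basis (V := T) (fun p : κ × κ => (et c.1 p).comp T.subtype) (by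
    intro Z hZ
    apply Subtype.ext
    have h3 : Z.1 * c.1 = 0 := by
      refine Matrix.ext fun i j => ?_
      exact hZ (i, j)
    have h4 : Z.1 * c.1 * c⁻¹.1 = 0 := by rw [h3, Matrix.zero_mul]
    rwa [Matrix.mul_assoc, show c.1 * c⁻¹.1 = 1 from c.mul_inv, Matrix.mul_one] at h4)
  refine ⟨B, by omega, ?_⟩
  intro P hP hP0
  refine indep_of (fun p : κ × κ => c.1 p.1 p.2)
    (fun p : κ × κ => (et c.1 p).comp T.subtype) D ?_ B hli P hP hP0
  intro F hF hF0 Z
  exact (hT Z.1).1 Z.2 ⟨F, hF, hF0⟩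

end Pool.Agent.Lib.MPf11a48.BD
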