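import Pool.Agent.Lib.MP_f11a48_ag.BD.Ult
import Pool.Agent.Lib.MP_f11a48_ag.BD.Tan
import Pool.Agent.Lib.MP_f11a48_ag.BD.Gr
import Pool.Agent.Lib.MP_f11a48_ag.CG.MainK
import Pool.Agent.Lib.MP_f11a48_ag.CG.Zar

/-!
# The transcendence degree of the periods in bounded degree, for all sums of fibres of a family
-/

set_option autoImplicit false
set_option linter.unusedSectionVars false

namespace Pool.Agent.Lib.MPf11a48.BD

open Polynomial Matrix
open Pool.Agent.Lib.MPf11a48.CG Pool.Agent.Lib.MPf11a48.CG.MainJM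
open Pool.Agent.Lib.MPf11a48.Tors
open Pool.Agent.Lib.MPf11a48.CM hiding OmegaM
open Pool.Agent.Lib.MPf11a48.GL2 (lie van en Geo)
open Pool.Agent.Lib.MPf11a48.GL2T
open Pool.Agent.Lib.MPf11a48.K3 (cx)
open Pool.Agent.Lib.MPf11a48.K3.KCurM (gl)

variable {ι : Type} [Fintype ι] [DecidableEq ι]

/-! ### block diagonal matrices -/

theorem aeval_incl {I : Type} {K L : IntermediateField ℚ ℂ} (hKL : K ≤ L) (v : I → ℂ)
    (F : MvPolynomial I K) :
    MvPolynomial.aeval v (MvPolynomial.map (IntermediateField.inclusion hKL : K →+* L) F) =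
      MvPolynomial.aeval v F := by
  rw [MvPolynomial.aeval_def, MvPolynomial.eval₂_map, MvPolynomial.aeval_def]
  rfl

theorem dv_incl {I : Type} [Fintype I] {K L : IntermediateField ℚ ℂ} (hKL : K ≤ L)
    (F : MvPolynomial I K) (y v : I → ℂ) :
    dv (MvPolynomial.map (IntermediateField.inclusion hKL : K →+* L) F) y v = dv F y v := by
  unfold dv
  refine Finset.sum_congr rfl fun i _ => ?_
  rw [MvPolynomial.pderiv_map, aeval_incl]

/-- from relations between the entries of the blocks to relations between the entries of a block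
diagonal matrix, in another basis -/
theorem det_bl (hBss : SpecBss) {σ : Type} [Fintype σ] [DecidableEq σ] {G : Subgroup (GL ι ℂ)}
    (hG : IsSS G) {r : ℕ} (m : Fin r → σ) (hm : Function.Injective m) (x : σ → GL ι ℂ)
    {K L : IntermediateField ℚ ℂ} (hKL : K ≤ L) (R : Matrix (ι × Fin r) (ι × Fin r) K)
    (c : GL (ι × Fin r) ℂ)
    (hc : c.1 = blockDiagonal (fun i => (x (m i)).1) * R.map (fun x => (x : ℂ))) (D s : ℕ)
    (h : ∀ (F : Fin (s + 1) → MvPolynomial (σ × ι × ι) L) (Z : Fin (s + 1) → σ → Matrix ι ι ℂ),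
      (∀ i, (F i).totalDegree ≤ D) → (∀ j a, Z j a ∈ lie (G : Set (GL ι ℂ))) →
      (∀ i, MvPolynomial.aeval (fun p => (x p.1).1 p.2.1 p.2.2) (F i) = 0) →
      (∀ i, ∀ p ∈ (F i).vars, p.1 ∈ Set.range m) →
      (Matrix.of fun i j => dv (F i) (fun p => (x p.1).1 p.2.1 p.2.2)
        (fun p => (Z j p.1 * (x p.1).1) p.2.1 p.2.2)).det = 0)
    (F : Fin (s + 1) → MvPolynomial ((ι × Fin r) × (ι × Fin r)) K)
    (Z : Fin (s + 1) → Matrix (ι × Fin r) (ι × Fin r) ℂ) (hF : ∀ i, (F i).totalDegree ≤ D)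
    (hF0 : ∀ i, MvPolynomial.aeval (fun p : (ι × Fin r) × (ι × Fin r) => c.1 p.1 p.2) (F i) = 0)
    (hZ : ∀ j, Z j ∈ lie (bd G r : Set (GL (ι × Fin r) ℂ))) :
    (Matrix.of fun i j => dv (F i) (fun p : (ι × Fin r) × (ι × Fin r) => c.1 p.1 p.2)
      fun p => (Z j * c.1) p.1 p.2).det = 0 := by
  obtain ⟨-, hL⟩ := hBss ι G r hG
  choose X hX hXZ using fun j => (hL (Z j)).1 (hZ j)
  let RL : Matrix (ι × Fin r) (ι × Fin r) L := R.map (IntermediateField.inclusion hKL)
  have hRL : RL.map (algebraMap L ℂ) = R.map (fun x => (x : ℂ)) := rfl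
  have hc1 : c.1 = blockDiagonal (fun i => (x (m i)).1) * RL.map (algebraMap L ℂ) := by
    rw [hRL, hc]
  let W : Fin (s + 1) → σ → Matrix ι ι ℂ := fun j => Function.extend m (X j) 0
  have hWm : ∀ j i, W j (m i) = X j i := fun j i => hm.extend_apply (X j) 0 i
  have h1 : (fun v => MvPolynomial.aeval (fun p : σ × ι × ι => (x p.1).1 p.2.1 p.2.2)
      (sb m RL v)) = fun v : (ι × Fin r) × (ι × Fin r) => c.1 v.1 v.2 := by
    funext v
    rw [hc1]
    exact aeval_sb m RL (fun a => (x a).1) v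
  have h2 : ∀ j, (fun v => dv (sb m RL v) (fun p : σ × ι × ι => (x p.1).1 p.2.1 p.2.2)
      (fun p : σ × ι × ι => (W j p.1 * (x p.1).1) p.2.1 p.2.2)) =
      fun v : (ι × Fin r) × (ι × Fin r) => (Z j * c.1) v.1 v.2 := by
    intro j
    funext v
    rw [hXZ j, hc1, ← Matrix.mul_assoc, ← blockDiagonal_mul]
    have h3 := dv_sb m RL (fun a => (x a).1) (fun a => W j a * (x a).1) v
    rw [h3]
    simp only [hWm]
  have h3 := h (fun i => MvPolynomial.bind₁ (sb m RL)
    (MvPolynomial.map (IntermediateField.inclusion hKL : K →+* L) (F i))) W ?_ ?_ ?_ ?_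
  · rw [← h3]
    congr 2
    ext i j
    rw [dv_bind, h1, h2, dv_incl]
  · intro i
    refine (totalDegree_bind_le _ (totalDegree_sb m RL) _).trans ?_
    exact le_trans (Finset.sup_mono (MvPolynomial.support_map_subset _ _)) (hF i)
  · intro j a
    by_cases ha : a ∈ Set.range m
    · obtain ⟨i, rfl⟩ := ha
      rw [hWm]
      exact hX j i
    · have h1 : W j a = 0 := Function.extend_apply' _ _ _ fun ⟨i, hi⟩ => ha ⟨i, hi⟩
      rw [h1]
      exact Submodule.zero_mem _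
  · intro i
    rw [MvPolynomial.aeval_bind₁, h1, aeval_incl]
    exact hF0 i
  · intro i p hp
    have h4 := MvPolynomial.vars_bind₁ (sb m RL)
      (MvPolynomial.map (IntermediateField.inclusion hKL : K →+* L) (F i)) hp
    obtain ⟨v, -, hv⟩ := Finset.mem_biUnion.1 h4
    exact vars_sb m RL v p hv

/-- the functional `Z ↦` derivative of `F` at `x` in the direction `Z x` -/
noncomputable def fk {k : ℕ} {L : IntermediateField ℚ ℂ} (g : Submodule ℂ (Matrix ι ι ℂ))
    (x : Fin k → Matrix ι ι ℂ) (F : MvPolynomial (Fin k × ι × ι) L) : (Fin k → g) →ₗ[ℂ] ℂ where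
  toFun Z := dv F (fun p => x p.1 p.2.1 p.2.2) fun p => ((Z p.1).1 * x p.1) p.2.1 p.2.2
  map_add' Z W := by
    unfold dv
    rw [← Finset.sum_add_distrib]
    refine Finset.sum_congr rfl fun p _ => ?_
    have e : ((Z + W) p.1).1 = (Z p.1).1 + (W p.1).1 := rfl
    change _ * ((((Z + W) p.1).1 * x p.1) p.2.1 p.2.2) = _
    rw [e, Matrix.add_mul]
    exact mul_add _ _ _
  map_smul' t Z := by
    unfold dv
    rw [RingHom.id_apply, smul_eq_mul, Finset.mul_sum]
    refine Finset.sum_congr rfl fun p _ => ?_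
    have e : ((t • Z) p.1).1 = t • (Z p.1).1 := rfl
    change _ * ((((t • Z) p.1).1 * x p.1) p.2.1 p.2.2) = _
    rw [e, Matrix.smul_mul]
    exact mul_left_comm _ _ _

theorem fk_apply {k : ℕ} {L : IntermediateField ℚ ℂ} (g : Submodule ℂ (Matrix ι ι ℂ))
    (x : Fin k → Matrix ι ι ℂ) (F : MvPolynomial (Fin k × ι × ι) L) (Z : Fin k → g) :
    fk g x F Z = dv F (fun p => x p.1 p.2.1 p.2.2) fun p => ((Z p.1).1 * x p.1) p.2.1 p.2.2 := rfl

/-- the defects of the fibres: from the determinants of order `s + 1` -/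
theorem exists_eps {k : ℕ} {L : IntermediateField ℚ ℂ} (g : Submodule ℂ (Matrix ι ι ℂ))
    (x : Fin k → Matrix ι ι ℂ) (D s : ℕ)
    (h : ∀ (F : Fin (s + 1) → MvPolynomial (Fin k × ι × ι) L)
      (Z : Fin (s + 1) → Fin k → Matrix ι ι ℂ), (∀ i, (F i).totalDegree ≤ D) →
      (∀ j a, Z j a ∈ g) →
      (∀ i, MvPolynomial.aeval (fun p => x p.1 p.2.1 p.2.2) (F i) = 0) →
      (Matrix.of fun i j => dv (F i) (fun p => x p.1 p.2.1 p.2.2)
        (fun p => (Z j p.1 * x p.1) p.2.1 p.2.2)).det = 0) :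
    ∃ ε : ℕ → ℕ, ∑ m ∈ Finset.range k, ε m ≤ s ∧
      ∀ (r : ℕ) (m : Fin r → Fin k), Function.Injective m →
        ∀ (F : Fin ((∑ i, ε (m i)) + 1) → MvPolynomial (Fin k × ι × ι) L)
          (Z : Fin ((∑ i, ε (m i)) + 1) → Fin k → Matrix ι ι ℂ), (∀ i, (F i).totalDegree ≤ D) →
          (∀ j a, Z j a ∈ g) →
          (∀ i, MvPolynomial.aeval (fun p => x p.1 p.2.1 p.2.2) (F i) = 0) →
          (∀ i, ∀ p ∈ (F i).vars, p.1 ∈ Set.range m) →
          (Matrix.of fun i j => dv (F i) (fun p => x p.1 p.2.1 p.2.2)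
            (fun p => (Z j p.1 * x p.1) p.2.1 p.2.2)).det = 0 := by
  classical
  let I : Type := {F : MvPolynomial (Fin k × ι × ι) L // F.totalDegree ≤ D ∧
    MvPolynomial.aeval (fun p : Fin k × ι × ι => x p.1 p.2.1 p.2.2) F = 0}
  let φ : I → (Fin k → g) →ₗ[ℂ] ℂ := fun F => fk g x F.1
  have hW := span_le_of_det φ s (by
    intro e Z
    exact h (fun i => (e i).1) (fun j a => (Z j a).1) (fun i => (e i).2.1) (fun j a => (Z j a).2)
      fun i => (e i).2.2)
  obtain ⟨ε, h1, h2⟩ := exists_defect k (Submodule.span ℂ (Set.range φ))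
  refine ⟨ε, h1.trans hW, ?_⟩
  intro r m hm F Z hF hZ hF0 hv
  let ψ : Fin ((∑ i, ε (m i)) + 1) → (Fin k → g) →ₗ[ℂ] ℂ := fun i => fk g x (F i)
  have h3 := h2 (Finset.univ.image fun i : Fin r => ((m i : Fin k) : ℕ))
    (Submodule.span ℂ (Set.range ψ)) (by
      rw [Submodule.span_le]
      rintro _ ⟨i, rfl⟩
      exact Submodule.subset_span ⟨⟨F i, hF i, hF0 i⟩, rfl⟩) (by
      intro χ hχ W hW0
      induction hχ using Submodule.span_induction with
      | mem χ hχ =>
        obtain ⟨i, rfl⟩ := hχ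
        change fk g x (F i) W = 0
        rw [fk_apply]
        unfold dv
        refine Finset.sum_eq_zero fun p _ => ?_
        by_cases hp : p.1 ∈ Set.range m
        · obtain ⟨i, hi⟩ := hp
          have e : W p.1 = 0 := hW0 p.1 (Finset.mem_image.2 ⟨i, Finset.mem_univ i, by rw [hi]⟩)
          change _ * (((W p.1).1 * x p.1) p.2.1 p.2.2) = 0
          have e' : ((W p.1).1 * x p.1) p.2.1 p.2.2 = 0 := by
            rw [e]
            change ((0 : Matrix ι ι ℂ) * x p.1) p.2.1 p.2.2 = 0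
            rw [Matrix.zero_mul]
            rfl
          rw [e', mul_zero]
        · rw [MvPolynomial.pderiv_eq_zero_of_notMem_vars fun h => hp (hv i p h), map_zero,
            zero_mul]
      | zero => rfl
      | add χ χ' _ _ h h' => rw [LinearMap.add_apply, h, h', add_zero]
      | smul t χ _ h => rw [LinearMap.smul_apply, h, smul_zero])
  rw [Finset.sum_image (fun i _ j _ h => hm (Fin.ext h))] at h3
  exact det_of_finrank h3 ψ (fun i => Submodule.subset_span ⟨i, rfl⟩)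
    fun j a => ⟨Z j a, hZ j a⟩

/-- the dimension of the group of block diagonal matrices -/
theorem dim_bd (hBss : SpecBss) {G : Subgroup (GL ι ℂ)} (hG : IsSS G) (r : ℕ) :
    r * Module.finrank ℂ (lie (G : Set (GL ι ℂ))) ≤
      Module.finrank ℂ (lie (bd G r : Set (GL (ι × Fin r) ℂ))) := by
  obtain ⟨-, hL⟩ := hBss ι G r hG
  let f : (Fin r → lie (G : Set (GL ι ℂ))) →ₗ[ℂ] lie (bd G r : Set (GL (ι × Fin r) ℂ)) :=
    { toFun := fun X => ⟨blockDiagonal fun i => (X i).1, (hL _).2 ⟨_, fun i => (X i).2, rfl⟩⟩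
      map_add' := by
        intro X Y
        apply Subtype.ext
        exact (blockDiagonal_add (fun i => (X i).1) fun i => (Y i).1)
      map_smul' := by
        intro t X
        apply Subtype.ext
        exact (blockDiagonal_smul t fun i => (X i).1) }
  have hf : Function.Injective f := by
    intro X Y h
    have h1 : (blockDiagonal fun i => (X i).1) = blockDiagonal fun i => (Y i).1 :=
      congrArg Subtype.val h
    have h2 := blockDiagonal_injective h1
    funext i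
    exact Subtype.ext (congrFun h2 i)
  have h1 := LinearMap.finrank_le_finrank_of_injective hf
  rw [Module.finrank_pi_fintype, Finset.sum_const, Finset.card_univ, Fintype.card_fin,
    smul_eq_mul] at h1
  exact h1

/-! ### the scalars -/

/-- a matrix which is not in the Lie algebra of the group of isometries, along which the derivatives
of all relations vanish -/
theorem exists_out [Nonempty ι] {ψ : Matrix ι ι ℚ} {G : Subgroup (GL ι ℂ)}
    (hiso : ∀ g ∈ G, g.1ᵀ * cx ψ * g.1 = cx ψ) (hd : ψ.det ≠ 0) {c : GL ι ℂ} {M : Matrix ι ι ℂ}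
    (hM : ∀ i j, M i j ∈ Qbar) {w : ℤ} (hw : w ≠ 0)
    (hc : c.1ᵀ * cx ψ * c.1 = (2 * Real.pi * Complex.I : ℂ) ^ w • M)
    {K : IntermediateField ℚ ℂ} (hK : K ≤ Qbar) :
    ∃ X : Matrix ι ι ℂ, X ∉ lie (G : Set (GL ι ℂ)) ∧ ∀ F : MvPolynomial (ι × ι) K,
      MvPolynomial.aeval (fun p : ι × ι => c.1 p.1 p.2) F = 0 →
      dv F (fun p : ι × ι => c.1 p.1 p.2) (fun p => (X * c.1) p.1 p.2) = 0 := by
  have h2pi : (2 * Real.pi * Complex.I : ℂ) ≠ 0 := Complex.two_pi_I_ne_zero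
  have hϖ : (2 * Real.pi * Complex.I : ℂ) ^ w ≠ 0 := zpow_ne_zero _ h2pi
  have hnot : (2 * Real.pi * Complex.I : ℂ) ^ w ∉ Qbar := fun hmem => hw (two_pi_I_zpow hmem)
  obtain ⟨δ, hδ⟩ := GL2.exists_derivation hnot
  have hXm := CF.MainM.log_deriv c ψ M hM _ hϖ hc δ
  refine ⟨c.1.map δ * c⁻¹.1, ?_, ?_⟩
  · intro hX
    rw [MainM.lie_iso hiso hX] at hXm
    have h2 := (smul_eq_zero.1 hXm.symm).resolve_left (div_ne_zero hδ hϖ)
    have h3 : (cx ψ).det = 0 := by
      rw [h2, det_zero]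
    rw [CF.MainM.cx_det] at h3
    exact hd (by exact_mod_cast h3)
  · intro F hF
    have h1 := ZarM.chain hK δ F fun p : ι × ι => c.1 p.1 p.2
    rw [hF, map_zero] at h1
    have e : (fun p : ι × ι => (c.1.map δ * c⁻¹.1 * c.1) p.1 p.2) =
        fun p : ι × ι => δ (c.1 p.1 p.2) := by
      funext p
      rw [Matrix.mul_assoc, show c⁻¹.1 * c.1 = 1 from c.inv_mul, Matrix.mul_one, Matrix.map_apply]
    rw [e]
    exact h1.symm

/-- the values of the form at the matrices `y` -/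
theorem form_mem {ψ₀ : Matrix ι ι ℚ} {G₀ : Subgroup (GL ι ℂ)}
    (hiso₀ : ∀ g ∈ G₀, g.1ᵀ * cx ψ₀ * g.1 = cx ψ₀) {L : IntermediateField ℚ ℂ} {y : GL ι ℂ}
    (hy : ∀ τ, FixesField L τ → tw τ y * y⁻¹ ∈ G₀) (i j : ι) : (y.1ᵀ * cx ψ₀ * y.1) i j ∈ L := by
  refine mem_of_fixed fun τ hτ => ?_
  have h1 := hiso₀ _ (hy τ hτ)
  have h2 : (tw τ y).1ᵀ * cx ψ₀ * (tw τ y).1 = y.1ᵀ * cx ψ₀ * y.1 := by
    have e1 : (tw τ y).1 = (tw τ y * y⁻¹).1 * y.1 := by
      have : tw τ y = tw τ y * y⁻¹ * y := by group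
      exact congrArg Units.val this
    rw [e1]
    generalize (tw τ y * y⁻¹).1 = A at h1 ⊢
    calc (A * y.1)ᵀ * cx ψ₀ * (A * y.1) = y.1ᵀ * (Aᵀ * cx ψ₀ * A) * y.1 := by
          rw [Matrix.transpose_mul]
          simp only [Matrix.mul_assoc]
      _ = _ := by rw [h1]
  have h3 : ((tw τ y).1ᵀ * cx ψ₀ * (tw τ y).1) i j = τ ((y.1ᵀ * cx ψ₀ * y.1) i j) := by
    simp only [Matrix.mul_apply, Matrix.transpose_apply, map_sum, map_mul]
    refine Finset.sum_congr rfl fun a _ => ?_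
    congr 1
    refine Finset.sum_congr rfl fun b _ => ?_
    congr 1
    exact (map_ratCast τ (ψ₀ b a)).symm
  rw [← h3, h2]

end Pool.Agent.Lib.MPf11a48.BD
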