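import Pool.Agent.Lib.MP_f11a48_ag.BD.Main
import Pool.Agent.Lib.MP_f11a48_ag.BD.Bas
import Pool.Agent.Lib.MP_f11a48_ag.CG.AllL

/-!
# The transcendence degree of the periods in bounded degree: the theorem
-/

set_option autoImplicit false
set_option linter.unusedSectionVars false

namespace Pool.Agent.Lib.MPf11a48.BD

open Polynomial Matrix
open scoped PowerSeries
open Pool.Agent.Lib.MPf11a48.CG Pool.Agent.Lib.MPf11a48.CG.MainJM
open Pool.Agent.Lib.MPf11a48.Tors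
open Pool.Agent.Lib.MPf11a48.CM hiding OmegaM
open Pool.Agent.Lib.MPf11a48.GF
open Pool.Agent.Lib.MPf11a48.CF (vm)
open Pool.Agent.Lib.MPf11a48.GL2 (lie van en Geo)
open Pool.Agent.Lib.MPf11a48.GL2T
open Pool.Agent.Lib.MPf11a48.K3 (cx)
open Pool.Agent.Lib.MPf11a48.K3.KCurM (gl)

variable {ι : Type} [Fintype ι] [DecidableEq ι]

/-- the result for one sum of fibres, from the determinants of order `q + 1` -/
theorem good_of [Nonempty ι] {G G₀ : Subgroup (GL ι ℂ)} {ψ₀ ψ N : Matrix ι ι ℚ}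
    {C₀ : GL ι ℂ} (w : ℤ) (D q : ℕ) {k : ℕ} (hG : IsSS G)
    (hiso : ∀ g ∈ G, g.1ᵀ * cx ψ * g.1 = cx ψ) (hd : ψ.det ≠ 0)
    (hG₀ : ClosedOver ⊥ (G₀ : Set (GL ι ℂ))) (hGG : ∀ g, g ∈ G₀ ↔ C₀ * g * C₀⁻¹ ∈ G)
    (hC₀ : C₀.1ᵀ * cx ψ * C₀.1 = (2 * Real.pi * Complex.I) ^ w • cx ψ₀)
    (hiso₀ : ∀ g ∈ G₀, g.1ᵀ * cx ψ₀ * g.1 = cx ψ₀) (hN₀ : cx N ∈ lie (G₀ : Set (GL ι ℂ)))
    {t : ℂ} {L : IntermediateField ℚ ℂ} (hLQ : L ≤ Qbar) {y : Fin k → GL ι ℂ}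
    (hyτ : ∀ x τ, FixesField L τ → tw τ (y x) * (y x)⁻¹ ∈ G₀)
    {r : ℕ} (hr : 1 ≤ r) (m' : Fin r → Fin k) (hm' : Function.Injective m')
    (hdet : ∀ (F : Fin (q + 1) → MvPolynomial (Fin k × ι × ι) L)
      (Z : Fin (q + 1) → Fin k → Matrix ι ι ℂ), (∀ i, (F i).totalDegree ≤ D) →
      (∀ j a, Z j a ∈ lie (G : Set (GL ι ℂ))) →
      (∀ i, MvPolynomial.aeval (fun p => (C₀ * gl (cx N) t * y p.1).1 p.2.1 p.2.2) (F i) = 0) →
      (∀ i, ∀ p ∈ (F i).vars, p.1 ∈ Set.range m') →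
      (Matrix.of fun i j => dv (F i) (fun p => (C₀ * gl (cx N) t * y p.1).1 p.2.1 p.2.2)
        (fun p => (Z j p.1 * (C₀ * gl (cx N) t * y p.1).1) p.2.1 p.2.2)).det = 0)
    {L₀ : IntermediateField ℚ ℂ} (hL₀L : L₀ ≤ L) (A : Matrix (ι × Fin r) (ι × Fin r) ℚ)
    (R : Matrix (ι × Fin r) (ι × Fin r) L₀) (c' : GL (ι × Fin r) ℂ)
    (hc' : c'.1 = cx A * (blockDiagonal fun i => (C₀ * gl (cx N) t * y (m' i)).1) *
      R.map (fun x => (x : ℂ))) :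
    ∃ B : Finset ((ι × Fin r) × (ι × Fin r)),
      r * Module.finrank ℂ (lie (G : Set (GL ι ℂ))) + (if w = 0 then 0 else 1) ≤ B.card + q ∧
      ∀ P : MvPolynomial B L₀, P.totalDegree ≤ D →
        MvPolynomial.aeval (fun p : B => c'.1 p.1.1 p.1.2) P = 0 → P = 0 := by
  classical
  have hC₁ψ := MainKM.form_C' hiso hG₀ hGG hN₀ t hC₀
  -- the matrix in the basis of the sum
  have hdet0 : ((blockDiagonal fun i => (C₀ * gl (cx N) t * y (m' i)).1) *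
      R.map (fun x => (x : ℂ))).det ≠ 0 := by
    intro h0
    apply CF.MainM.det_unit c'
    rw [hc', Matrix.mul_assoc, det_mul, h0, mul_zero]
  obtain ⟨c, hcx⟩ : ∃ c : GL (ι × Fin r) ℂ,
      c.1 = (blockDiagonal fun i => (C₀ * gl (cx N) t * y (m' i)).1) *
        R.map (fun x => (x : ℂ)) := ⟨Matrix.GeneralLinearGroup.mkOfDetNeZero _ hdet0, rfl⟩
  have hcc : c'.1 = (A.map (algebraMap ℚ L₀)).map (algebraMap L₀ ℂ) * c.1 := by
    rw [hc', Matrix.mul_assoc, ← hcx]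
    congr 1
  -- the rank of the relations
  have hrank := fun F Z => det_bl specBss hG m' hm' (fun x => C₀ * gl (cx N) t * y x) hL₀L R c hcx
    D q hdet F Z
  -- the scalars
  have hout : (if w = 0 then 0 else 1) = 0 ∨ (if w = 0 then 0 else 1) = 1 ∧
      ∃ X : Matrix (ι × Fin r) (ι × Fin r) ℂ, X ∉ lie (bd G r : Set (GL (ι × Fin r) ℂ)) ∧
        ∀ F : MvPolynomial ((ι × Fin r) × (ι × Fin r)) L₀,
          MvPolynomial.aeval (fun p : (ι × Fin r) × (ι × Fin r) => c.1 p.1 p.2) F = 0 →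
          dv F (fun p : (ι × Fin r) × (ι × Fin r) => c.1 p.1 p.2)
            (fun p => (X * c.1) p.1 p.2) = 0 := by
    by_cases hw : w = 0
    · exact Or.inl (if_pos hw)
    · refine Or.inr ⟨if_neg hw, ?_⟩
      have : Nonempty (Fin r) := ⟨⟨0, hr⟩⟩
      refine exists_out (iso_bd hiso) (det_bd hd)
        (M := (R.map (fun x => (x : ℂ)))ᵀ *
          (blockDiagonal fun i => (y (m' i)).1ᵀ * cx ψ₀ * (y (m' i)).1) *
          R.map (fun x => (x : ℂ))) ?_ hw ?_ (hL₀L.trans hLQ)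
      · have hR : ∀ i j, (R.map (fun x => (x : ℂ))) i j ∈ L := fun i j => hL₀L (R i j).2
        have hB : ∀ i j, (blockDiagonal fun i => (y (m' i)).1ᵀ * cx ψ₀ * (y (m' i)).1) i j ∈ L := by
          intro i j
          rw [blockDiagonal_apply]
          split_ifs
          · exact form_mem hiso₀ (hyτ _) _ _
          · exact L.zero_mem
        intro i j
        refine hLQ ?_
        rw [Matrix.mul_apply]
        refine sum_mem fun a _ => L.mul_mem ?_ (hR a j)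
        rw [Matrix.mul_apply]
        exact sum_mem fun b _ => L.mul_mem (hR b i) (hB b a)
      · have h1 := form_bl (r := r) ψ fun i => C₀ * gl (cx N) t * y (m' i)
        have h2 : ∀ i, (C₀ * gl (cx N) t * y (m' i)).1ᵀ * cx ψ * (C₀ * gl (cx N) t * y (m' i)).1 =
            (2 * Real.pi * Complex.I : ℂ) ^ w • ((y (m' i)).1ᵀ * cx ψ₀ * (y (m' i)).1) := by
          intro i
          rw [← Matrix.smul_mul, ← Matrix.mul_smul, ← hC₁ψ]
          have e1 : (C₀ * gl (cx N) t * y (m' i)).1 = (C₀ * gl (cx N) t).1 * (y (m' i)).1 := rfl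
          rw [e1, Matrix.transpose_mul]
          simp only [Matrix.mul_assoc]
        have h3 : (fun i => (C₀ * gl (cx N) t * y (m' i)).1ᵀ * cx ψ *
            (C₀ * gl (cx N) t * y (m' i)).1) =
            (2 * Real.pi * Complex.I : ℂ) ^ w •
              fun i => (y (m' i)).1ᵀ * cx ψ₀ * (y (m' i)).1 := funext h2
        rw [h3, blockDiagonal_smul] at h1
        rw [hcx, Matrix.transpose_mul]
        have e2 : (R.map (fun x => (x : ℂ)))ᵀ *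
            (blockDiagonal fun i => (C₀ * gl (cx N) t * y (m' i)).1)ᵀ *
            cx (blockDiagonal fun _ : Fin r => ψ) *
            ((blockDiagonal fun i => (C₀ * gl (cx N) t * y (m' i)).1) *
              R.map (fun x => (x : ℂ))) =
            (R.map (fun x => (x : ℂ)))ᵀ *
            ((bl fun i => C₀ * gl (cx N) t * y (m' i)).1ᵀ *
              cx (blockDiagonal fun _ : Fin r => ψ) *
              (bl fun i => C₀ * gl (cx N) t * y (m' i)).1) * R.map (fun x => (x : ℂ)) := by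
          simp only [Matrix.mul_assoc]
          rfl
        rw [e2, h1, Matrix.mul_smul, Matrix.smul_mul]
  obtain ⟨B, hB, hBP⟩ := ind_left hcc _ D q _ (fun F Z h1 h2 h3 => hrank F Z h1 h2 h3) hout
  refine ⟨B, ?_, hBP⟩
  have h1 := dim_bd specBss hG r
  omega

/-- the result, from the arithmetic of the family -/
theorem assemble [Nonempty ι] {G G₀ : Subgroup (GL ι ℂ)} {ψ₀ ψ N : Matrix ι ι ℚ}
    {C₀ : GL ι ℂ} {Pf : ℂ → Matrix ι ι ℂ} (w : ℤ) (δ D s k : ℕ) (hG : IsSS G)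
    (hiso : ∀ g ∈ G, g.1ᵀ * cx ψ * g.1 = cx ψ) (hd : ψ.det ≠ 0)
    (hG₀ : ClosedOver ⊥ (G₀ : Set (GL ι ℂ))) (hGG : ∀ g, g ∈ G₀ ↔ C₀ * g * C₀⁻¹ ∈ G)
    (hC₀ : C₀.1ᵀ * cx ψ * C₀.1 = (2 * Real.pi * Complex.I) ^ w • cx ψ₀)
    (hiso₀ : ∀ g ∈ G₀, g.1ᵀ * cx ψ₀ * g.1 = cx ψ₀)
    (hN : IsNilpotent N) (hN₀ : cx N ∈ lie (G₀ : Set (GL ι ℂ)))
    (hs : TrS C₀.1 N s) (hA : Arik k G₀ N Pf) :
    ∃ C : ℕ, ∀ a b : ℤ, a ≠ 0 → (C : ℤ) * |a| ^ C ≤ b →
      ∃ ε : ℕ → ℕ, ∑ m ∈ Finset.range k, ε m ≤ s ∧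
        ∀ r : ℕ, 1 ≤ r → ∀ m : Fin r → ℕ, Function.Injective m → (∀ i, m i < k) →
          ∀ L : IntermediateField ℚ ℂ, FiniteDimensional ℚ L → Module.finrank ℚ L ≤ δ →
            ∀ (A : Matrix (ι × Fin r) (ι × Fin r) ℚ) (R : Matrix (ι × Fin r) (ι × Fin r) L)
              (c : GL (ι × Fin r) ℂ),
              c.1 = cx A * (blockDiagonal fun i => C₀.1 * Pf ((a : ℂ) / (b + m i * a))) *
                R.map (fun x => (x : ℂ)) →
              ∃ B : Finset ((ι × Fin r) × (ι × Fin r)),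
                r * Module.finrank ℂ (lie (G : Set (GL ι ℂ))) + (if w = 0 then 0 else 1) ≤
                  B.card + ∑ i, ε (m i) ∧
                ∀ P : MvPolynomial B L, P.totalDegree ≤ D →
                  MvPolynomial.aeval (fun p : B => c.1 p.1.1 p.1.2) P = 0 → P = 0 := by
  classical
  have hG₀T : IsTorsor (⊥ : IntermediateField ℚ ℂ) (G₀ : Set (GL ι ℂ)) :=
    ⟨hG₀, ⟨1, G₀.one_mem⟩, fun a ha b hb d hd => G₀.mul_mem (G₀.mul_mem ha (G₀.inv_mem hb)) hd⟩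
  obtain ⟨n, hn⟩ := ultR specDex (σ := Fin k) C₀ N G G₀ D s hs hN (SubM.geo hG₀T)
  let I : Type := {ε : Fin k → Fin (s + 1) // ∑ i, (ε i : ℕ) ≤ s}
  have : Nonempty I := ⟨⟨fun _ => 0, by simp⟩⟩
  set δ₁ : ℕ := (max δ 0) ^ (Fintype.card I * (Fintype.card Empty + 1)) with hδ₁
  obtain ⟨C, δ', hC⟩ := hA n (δ₁ + 1)
  refine ⟨C, fun a b ha hb => ?_⟩
  by_contra hcon
  -- the exceptional sums
  have hbad : ∀ ε : I, ∃ L : IntermediateField ℚ ℂ, FiniteDimensional ℚ L ∧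
      Module.finrank ℚ L ≤ δ ∧ ∃ (r : ℕ) (m : Fin r → Fin k)
        (A : Matrix (ι × Fin r) (ι × Fin r) ℚ) (R : Matrix (ι × Fin r) (ι × Fin r) L)
        (c : GL (ι × Fin r) ℂ), 1 ≤ r ∧ Function.Injective m ∧
        c.1 = cx A * (blockDiagonal fun i => C₀.1 * Pf ((a : ℂ) / (b + (m i : ℕ) * a))) *
          R.map (fun x => (x : ℂ)) ∧
        ¬ ∃ B : Finset ((ι × Fin r) × (ι × Fin r)),
          r * Module.finrank ℂ (lie (G : Set (GL ι ℂ))) + (if w = 0 then 0 else 1) ≤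
            B.card + ∑ i, (ε.1 (m i) : ℕ) ∧
          ∀ P : MvPolynomial B L, P.totalDegree ≤ D →
            MvPolynomial.aeval (fun p : B => c.1 p.1.1 p.1.2) P = 0 → P = 0 := by
    intro ε
    by_contra hno
    apply hcon
    refine ⟨fun m => if h : m < k then (ε.1 ⟨m, h⟩ : ℕ) else 0, ?_, ?_⟩
    · rw [Finset.sum_range]
      refine le_trans (Finset.sum_le_sum fun i _ => ?_) ε.2
      rw [dif_pos i.2]
    · intro r hr m hm hmk L hL hLδ A R c hc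
      let m' : Fin r → Fin k := fun i => ⟨m i, hmk i⟩
      have h2 : ∑ i, (if h : m i < k then (ε.1 ⟨m i, h⟩ : ℕ) else 0) = ∑ i, (ε.1 (m' i) : ℕ) :=
        Finset.sum_congr rfl fun i _ => dif_pos (hmk i)
      by_contra h1
      refine hno ⟨L, hL, hLδ, r, m', A, R, c, hr, fun i j h => hm (congrArg Fin.val h), hc, ?_⟩
      rintro ⟨B, hB, hBP⟩
      refine h1 ⟨B, ?_, hBP⟩
      rw [h2]
      exact hB
  choose K hKf hKδ hrest using hbad
  obtain ⟨L₀, hKL₀, hL₀f, -, hL₀d⟩ := exists_field' specDeg I Empty 0 δ K hKf hKδ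
    (fun q => q.elim) (fun q => q.elim)
  obtain ⟨L, hL₀L, hLf, -, t, y, hPf, hyτ, hrel⟩ := hC a b ha hb L₀ hL₀f
    (hL₀d.trans (Nat.le_add_right _ _))
  have hrel' := hrel L le_rfl hLf (Nat.le_mul_of_pos_right _ (Nat.succ_pos _))
  have hGG₁ := MainKM.conj_C hG₀ hGG hN₀ t
  -- the defects
  obtain ⟨ε, hε, hεd⟩ := exists_eps (lie (G : Set (GL ι ℂ)))
    (fun x => (C₀ * gl (cx N) t * y x).1) D s
    (fun F Z h1 h2 h3 => hn t L y hGG₁ hrel' F Z h1 h2 h3)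
  have hεs : ∀ i : Fin k, ε i < s + 1 := fun i => Nat.lt_succ_of_le
    ((Finset.single_le_sum (f := ε) (fun _ _ => Nat.zero_le _) (Finset.mem_range.2 i.2)).trans hε)
  let ε' : I := ⟨fun i => ⟨ε i, hεs i⟩, by
    rw [← Finset.sum_range]
    exact hε⟩
  obtain ⟨r, m, A, R, c, hr, hm, hc, hno⟩ := hrest ε'
  apply hno
  refine good_of w D _ hG hiso hd hG₀ hGG hC₀ hiso₀ hN₀ (CF.MainM.le_Qbar L) hyτ hr m hm
    (hεd r m hm) ((hKL₀ ε').trans hL₀L) A R c ?_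
  rw [hc]
  congr 2
  refine congrArg _ (funext fun i => ?_)
  rw [hPf (m i), ← Matrix.mul_assoc]
  rfl

/-- the theorem -/
theorem main [Nonempty ι] (e : ℕ) (l : ι → ℕ) (T : ℤ[X]) (B : Matrix ι ι ℤ[X])
    (Y : Matrix ι ι ℚ⟦X⟧) (G G₀ : Subgroup (GL ι ℂ)) (ψ₀ ψ N : Matrix ι ι ℚ) (C₀ : GL ι ℂ)
    (w : ℤ) (δ D s k : ℕ) (hG : IsSS G) (hiso : ∀ g ∈ G, g.1ᵀ * cx ψ * g.1 = cx ψ)
    (hd : ψ.det ≠ 0) (hG₀ : ClosedOver ⊥ (G₀ : Set (GL ι ℂ)))
    (hGG : ∀ g, g ∈ G₀ ↔ C₀ * g * C₀⁻¹ ∈ G) (hF : FamR k e l T B N ψ₀ Y G₀)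
    (hC₀ : C₀.1ᵀ * cx ψ * C₀.1 = (2 * Real.pi * Complex.I) ^ w • cx ψ₀)
    (hN : IsNilpotent N) (hN₀ : cx N ∈ lie (G₀ : Set (GL ι ℂ))) (hs : TrS C₀.1 N s) :
    ∃ C : ℕ, ∀ a b : ℤ, a ≠ 0 → (C : ℤ) * |a| ^ C ≤ b →
      ∃ ε : ℕ → ℕ, ∑ m ∈ Finset.range k, ε m ≤ s ∧
        ∀ r : ℕ, 1 ≤ r → ∀ m : Fin r → ℕ, Function.Injective m → (∀ i, m i < k) →
          ∀ L : IntermediateField ℚ ℂ, FiniteDimensional ℚ L → Module.finrank ℚ L ≤ δ →
            ∀ (A : Matrix (ι × Fin r) (ι × Fin r) ℚ) (R : Matrix (ι × Fin r) (ι × Fin r) L)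
              (c : GL (ι × Fin r) ℂ),
              c.1 = cx A * (blockDiagonal fun i => C₀.1 *
                NormedSpace.exp (Complex.log ((a : ℂ) / (b + m i * a)) • cx (xp e l N)) *
                vm Y ((a : ℂ) / (b + m i * a))) * R.map (fun x => (x : ℂ)) →
              ∃ V : Finset ((ι × Fin r) × (ι × Fin r)),
                r * Module.finrank ℂ (lie (G : Set (GL ι ℂ))) + (if w = 0 then 0 else 1) ≤
                  V.card + ∑ i, ε (m i) ∧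
                ∀ F : MvPolynomial V L, F.totalDegree ≤ D →
                  MvPolynomial.aeval (fun p : V => c.1 p.1.1 p.1.2) F = 0 → F = 0 := by
  have h2pi : (2 * Real.pi * Complex.I : ℂ) ≠ 0 := Complex.two_pi_I_ne_zero
  have hϖ : (2 * Real.pi * Complex.I : ℂ) ^ w ≠ 0 := zpow_ne_zero _ h2pi
  have hd₀ : ψ₀.det ≠ 0 := MainPM.det_ne hC₀ hd
  -- the form
  have hiso₀ : ∀ g ∈ G₀, g.1ᵀ * cx ψ₀ * g.1 = cx ψ₀ := by
    intro g hg
    have h1 := hiso _ ((hGG g).1 hg)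
    have e1 : C₀.1 * g.1 = (C₀ * g * C₀⁻¹).1 * C₀.1 := by
      have : C₀ * g = C₀ * g * C₀⁻¹ * C₀ := by group
      exact congrArg Units.val this
    have h2 : (C₀.1 * g.1)ᵀ * cx ψ * (C₀.1 * g.1) = C₀.1ᵀ * cx ψ * C₀.1 := by
      rw [e1]
      generalize (C₀ * g * C₀⁻¹).1 = A at h1 ⊢
      calc (A * C₀.1)ᵀ * cx ψ * (A * C₀.1) = C₀.1ᵀ * (Aᵀ * cx ψ * A) * C₀.1 := by
            rw [Matrix.transpose_mul]
            simp only [Matrix.mul_assoc]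
        _ = _ := by rw [h1]
    have h3 : (C₀.1 * g.1)ᵀ * cx ψ * (C₀.1 * g.1) = g.1ᵀ * (C₀.1ᵀ * cx ψ * C₀.1) * g.1 := by
      rw [Matrix.transpose_mul]
      simp only [Matrix.mul_assoc]
    rw [h3, hC₀, Matrix.mul_smul, Matrix.smul_mul] at h2
    exact smul_right_injective _ hϖ h2
  have hNψ : Nᵀ * ψ₀ + ψ₀ * N = 0 := MainAM.form_lie hiso₀ hN₀
  by_cases hY : Y.det = 0
  · obtain ⟨C, hC⟩ := MainAM.no_c specEval hF.g hY
    have hcast : ∀ (a b : ℤ) (m : ℕ), ((a : ℂ) / ((b + m * a : ℤ) : ℂ)) =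
        (a : ℂ) / (b + m * a) := by
      intro a b m
      push_cast
      rfl
    refine ⟨C + k + 1, fun a b ha hb => ⟨fun _ => 0, by simp, ?_⟩⟩
    intro r hr m hm hmk L hL hLδ A R c hc
    exfalso
    have h1 := hC a (b + m ⟨0, hr⟩ * a) ha
      (MainAM.shift (by have := hmk ⟨0, hr⟩; omega) ha hb)
    rw [hcast] at h1
    apply CF.MainM.det_unit c
    rw [hc, det_mul, det_mul, det_blockDiagonal]
    refine mul_eq_zero_of_left (mul_eq_zero_of_right _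
      (Finset.prod_eq_zero (Finset.mem_univ ⟨0, hr⟩) ?_)) _
    rw [det_mul, h1, mul_zero]
  · have hA := aAril ι k e l T B N ψ₀ Y G₀ hF (St2M.isSS hGG hG hG₀) hN hN₀ hd₀ hY hNψ
    obtain ⟨C, hC⟩ := assemble w δ D s k hG hiso hd hG₀ hGG hC₀ hiso₀ hN hN₀ hs hA
    refine ⟨C, fun a b ha hb => ?_⟩
    obtain ⟨ε, hε, h⟩ := hC a b ha hb
    refine ⟨ε, hε, fun r hr m hm hmk L hL hLδ A R c hc => ?_⟩
    refine h r hr m hm hmk L hL hLδ A R c ?_
    rw [hc]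
    simp only [Matrix.mul_assoc]

end Pool.Agent.Lib.MPf11a48.BD
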