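import Pool.Agent.Lib.MP_f11a48_ag.BD.Alg
import Pool.Agent.Lib.MP_f11a48_ag.CG.UltJ

/-!
# The rank of the relations of bounded degree, by an ultraproduct
-/

set_option autoImplicit false

namespace Pool.Agent.Lib.MPf11a48.BD

open Matrix
open Pool.Agent.Lib.MPf11a48.CG Pool.Agent.Lib.MPf11a48.CG.UltM Pool.Agent.Lib.MPf11a48.CG.UltJM
open Pool.Agent.Lib.MPf11a48.Tors
open Pool.Agent.Lib.MPf11a48.GL2 (lie van en Geo tang lr)
open Pool.Agent.Lib.MPf11a48.K3 (cx)
open Pool.Agent.Lib.MPf11a48.K3.KCurM (gl)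

/-- Any `s + 1` relations of degree `≤ D` between the entries of the matrices `C y a`,
`C = C₀ exp(t N)`, have linearly dependent derivatives along the Lie algebra of `G`. -/
theorem ultR (hDex : SpecDex) {ι σ : Type} [Fintype ι] [DecidableEq ι] [Fintype σ] [DecidableEq σ]
    (C₀ : GL ι ℂ) (N : Matrix ι ι ℚ) (G G₀ : Subgroup (GL ι ℂ)) (D s : ℕ)
    (hs : TrS C₀.1 N s) (hN : IsNilpotent N) (hG₀ : Geo (G₀ : Set (GL ι ℂ))) :
    ∃ n : ℕ, ∀ (t : ℂ) (K : IntermediateField ℚ ℂ) (y : σ → GL ι ℂ),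
      (∀ g, g ∈ G₀ ↔ C₀ * gl (cx N) t * g * (C₀ * gl (cx N) t)⁻¹ ∈ G) →
      HasRelT K n (fun a => (y a).1) G₀ →
      ∀ (F : Fin (s + 1) → MvPolynomial (σ × ι × ι) K) (Z : Fin (s + 1) → σ → Matrix ι ι ℂ),
        (∀ i, (F i).totalDegree ≤ D) → (∀ j a, Z j a ∈ lie (G : Set (GL ι ℂ))) →
        (∀ i, MvPolynomial.aeval (fun p => (C₀ * gl (cx N) t * y p.1).1 p.2.1 p.2.2) (F i) = 0) →
        (Matrix.of fun i j => dv (F i) (fun p => (C₀ * gl (cx N) t * y p.1).1 p.2.1 p.2.2)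
          (fun p => (Z j p.1 * (C₀ * gl (cx N) t * y p.1).1) p.2.1 p.2.2)).det = 0 := by
  classical
  by_contra hcon
  push Not at hcon
  choose t K y hC' hrel F Z hdeg hZ hF0 hne using hcon
  -- the matrices `C`
  let C : ℕ → GL ι ℂ := fun n => C₀ * gl (cx N) (t n)
  have hC : ∀ n g, g ∈ G₀ ↔ C n * g * (C n)⁻¹ ∈ G := hC'
  -- a basis of the Lie algebra
  obtain ⟨d, X, hX⟩ := Submodule.fg_iff_exists_fin_generating_family.1
    (IsNoetherian.noetherian (lie (G₀ : Set (GL ι ℂ))))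
  have hXm : ∀ j, X j ∈ lie (G₀ : Set (GL ι ℂ)) := fun j => hX ▸ Submodule.subset_span ⟨j, rfl⟩
  have hz : ∀ n, ∀ Z ∈ lie (G : Set (GL ι ℂ)), ∃ z : Fin d → ℂ,
      Z = ∑ j, z j • ((C n).1 * X j * (C n)⁻¹.1) := by
    intro n Z hZ
    have h1 := lie_of_conj hG₀ (hC n) hZ
    rw [← hX] at h1
    obtain ⟨z, hz⟩ := (Submodule.mem_span_range_iff_exists_fun ℂ).1 h1
    refine ⟨z, ?_⟩
    have h6 : Z = (C n).1 * ((C n)⁻¹.1 * Z * (C n).1) * (C n)⁻¹.1 := by
      have : (C n).1 * ((C n)⁻¹.1 * Z * (C n).1) * (C n)⁻¹.1 =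
          ((C n).1 * (C n)⁻¹.1) * Z * ((C n).1 * (C n)⁻¹.1) := by
        simp only [Matrix.mul_assoc]
      rw [this, GL2.glinv, Matrix.one_mul, Matrix.mul_one]
    rw [h6, ← hz, Matrix.mul_sum, Matrix.sum_mul]
    refine Finset.sum_congr rfl fun j _ => ?_
    rw [Matrix.mul_smul, Matrix.smul_mul]
  obtain ⟨r, θ, hr, hθ⟩ := exists_theta (kk K) hN (Or.inr hs) t
  -- the relations
  have hz' : ∀ n j a, ∃ z : Fin d → ℂ, Z n j a = ∑ i, z i • ((C n).1 * X i * (C n)⁻¹.1) :=
    fun n j a => hz n (Z n j a) (hZ n j a)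
  choose z hz' using hz'
  have hQ : ∀ i, ∃ Q : MvPolynomial (σ × ι × ι) (AA K), ∀ n, MvPolynomial.map (evK K n) Q = F n i :=
    fun i => exists_seq K D (fun n => F n i) fun n => hdeg n i
  choose Q hQ using hQ
  have hspan : ∀ (j : Fin (s + 1)) (a : σ), (mg fun n => Z n j a) ∈ Submodule.span UU
      (Set.range fun i => mg fun n => (C n).1 * X i * (C n)⁻¹.1) := by
    intro j a
    have e : mg (fun n => Z n j a) = ∑ i, gm (fun n => z n j a i) •
        mg (fun n => (C n).1 * X i * (C n)⁻¹.1) := by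
      ext p q
      rw [Matrix.sum_apply]
      simp only [Matrix.smul_apply, mg_apply, smul_eq_mul]
      rw [← Finset.sum_congr rfl fun j _ => map_mul gm _ _, ← map_sum]
      congr 1
      funext n
      rw [Finset.sum_apply]
      change Z n j a p q = ∑ i, z n j a i * ((C n).1 * X i * (C n)⁻¹.1) p q
      conv_lhs => rw [hz' n j a]
      rw [Matrix.sum_apply]
      rfl
    rw [e]
    exact Submodule.sum_mem _ fun j _ =>
      Submodule.smul_mem _ _ (Submodule.subset_span ⟨j, rfl⟩)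
  -- apply ALGR
  obtain ⟨u, hu, δ, hδ⟩ := algR hDex (kk K) d r (fun j => mg fun _ => X j)
    (fun j => mg fun n => (C n).1 * X j * (C n)⁻¹.1) (mg fun n => (C n).1) θ
    (fun a => mg fun n => (y n a).1) (by
      intro j
      rw [← mg_mul, ← mg_mul]
      congr 1
      funext n
      rw [Matrix.mul_assoc, GL2.glinv', Matrix.mul_one]) hθ (by
    intro Φ hΦ a j
    obtain ⟨Q, rfl⟩ := MvPolynomial.map_surjective (gk K) (gk_surj K) Φ
    have h1 := ev_map (inc K) (algebraMap (kk K) UU) (gk K) gm (gm_inc K) Q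
      (fun (p : σ × ι × ι) n => (y n p.1).1 p.2.1 p.2.2)
    have h2 : gm (MvPolynomial.eval₂ (inc K) (fun (p : σ × ι × ι) n => (y n p.1).1 p.2.1 p.2.2) Q)
        = 0 := h1.symm.trans hΦ
    rw [gm_eq_zero] at h2
    rw [dv_eq_dw]
    have h3 := dw_map (inc K) (algebraMap (kk K) UU) (gk K) gm (gm_inc K) Q
      (fun (p : σ × ι × ι) n => (y n p.1).1 p.2.1 p.2.2)
      (fun p n => if p.1 = a then (X j * (y n a).1) p.2.1 p.2.2 else 0)
    have e1 : (fun p : σ × ι × ι => if p.1 = a then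
        ((mg fun _ => X j) * mg fun n => (y n a).1) p.2.1 p.2.2 else 0) =
        fun p => gm (fun n => if p.1 = a then (X j * (y n a).1) p.2.1 p.2.2 else 0) := by
      funext p
      rw [← mg_mul]
      split_ifs with hp
      · rfl
      · exact (map_zero gm).symm
    rw [e1]
    refine h3.trans ?_
    rw [gm_eq_zero]
    have h4 : ∀ᶠ n in (Filter.hyperfilter ℕ : Filter ℕ), Q.totalDegree ≤ n := by
      refine Filter.Eventually.filter_mono (Nat.hyperfilter_le_atTop) ?_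
      exact Filter.eventually_ge_atTop _
    filter_upwards [h2, h4] with n hn1 hn2
    have h5 := dw_map (inc K) (algebraMap (K n) ℂ) (evK K n) (evC n) (evC_inc K n) Q
      (fun (p : σ × ι × ι) n => (y n p.1).1 p.2.1 p.2.2)
      (fun p n => if p.1 = a then (X j * (y n a).1) p.2.1 p.2.2 else 0)
    refine h5.symm.trans ?_
    have h6 := ev_map (inc K) (algebraMap (K n) ℂ) (evK K n) (evC n) (evC_inc K n) Q
      (fun (p : σ × ι × ι) n => (y n p.1).1 p.2.1 p.2.2)
    exact dv_zero hG₀ (hrel n) (hXm j) (MvPolynomial.map (evK K n) Q)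
      ((Finset.sup_mono (MvPolynomial.support_map_subset _ _)).trans hn2) (h6.trans hn1) a)
    (fun j a => mg fun n => Z n j a) hspan (by rw [Fintype.card_fin]; omega)
  -- the values
  let c : σ × ι × ι → ℕ → ℂ := fun p n => (C n * y n p.1).1 p.2.1 p.2.2
  let v : Fin (s + 1) → σ × ι × ι → ℕ → ℂ := fun j p n =>
    (Z n j p.1 * (C n * y n p.1).1) p.2.1 p.2.2
  have hδc : ∀ p : σ × ι × ι, δ (gm (c p)) = ∑ j, u j * gm (v j p) := by
    rintro ⟨a, i, l⟩
    have h1 := hδ a i l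
    rw [← mg_mul] at h1
    refine h1.trans (Finset.sum_congr rfl fun j _ => ?_)
    rw [← mg_mul]
    rfl
  have hF0' : ∀ i, MvPolynomial.aeval (fun p => gm (c p)) (MvPolynomial.map (gk K) (Q i)) = 0 := by
    intro i
    have h2 := ev_map (inc K) (algebraMap (kk K) UU) (gk K) gm (gm_inc K) (Q i) c
    refine h2.trans ?_
    rw [gm_eq_zero]
    refine Filter.Eventually.of_forall fun n => ?_
    have h3 := ev_map (inc K) (algebraMap (K n) ℂ) (evK K n) (evC n) (evC_inc K n) (Q i) c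
    rw [hQ i n] at h3
    exact h3.symm.trans (hF0 n i)
  -- the matrix of the derivatives
  let A : Matrix (Fin (s + 1)) (Fin (s + 1)) (ℕ → ℂ) := Matrix.of fun i j =>
    dw (inc K) (Q i) c (v j)
  have hA : ∀ i j, gm (A i j) = dw (algebraMap (kk K) UU) (MvPolynomial.map (gk K) (Q i))
      (fun p => gm (c p)) (fun p => gm (v j p)) := fun i j =>
    (dw_map (inc K) (algebraMap (kk K) UU) (gk K) gm (gm_inc K) (Q i) c (v j)).symm
  have hsum : ∀ i, ∑ j, gm (A i j) * u j = 0 := by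
    intro i
    have h2 := AlgM.der_aeval δ (MvPolynomial.map (gk K) (Q i)) (fun p => gm (c p))
    rw [hF0' i, map_zero] at h2
    have h3 : ∑ j, gm (A i j) * u j = dv (MvPolynomial.map (gk K) (Q i)) (fun p => gm (c p))
        (fun p => δ (gm (c p))) := by
      simp only [hA]
      rw [dv_eq_dw]
      unfold dw
      simp only [Finset.sum_mul, hδc, Finset.mul_sum]
      rw [Finset.sum_comm]
      refine Finset.sum_congr rfl fun p _ => Finset.sum_congr rfl fun j _ => ?_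
      ring
    rw [h3, ← h2]
  have hdet : (A.map gm).det = 0 := by
    by_contra h0
    apply hu
    refine Matrix.eq_zero_of_mulVec_eq_zero h0 ?_
    funext i
    exact hsum i
  have hdet' : gm A.det = 0 := by
    rw [RingHom.map_det]
    exact hdet
  rw [gm_eq_zero] at hdet'
  obtain ⟨n, hn⟩ := hdet'.exists
  apply hne n
  have h5 : (Matrix.of fun i j => dv (F n i) (fun p => (C₀ * gl (cx N) (t n) * y n p.1).1 p.2.1 p.2.2)
      (fun p => (Z n j p.1 * (C₀ * gl (cx N) (t n) * y n p.1).1) p.2.1 p.2.2)) =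
      (evC n).mapMatrix A := by
    ext i j
    change dv (F n i) (fun p => evC n (c p)) (fun p => evC n (v j p)) = evC n (A i j)
    rw [dv_eq_dw, ← hQ i n]
    exact dw_map (inc K) (algebraMap (K n) ℂ) (evK K n) (evC n) (evC_inc K n) (Q i) c (v j)
  rw [h5, ← RingHom.map_det]
  exact hn

end Pool.Agent.Lib.MPf11a48.BD
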